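import Pool.Agent.helper80.VD.SpecG

/-!
# Project VD (MP_07c750_an), row GNT: naturality of the covariant derivative and of the curvature
-/

set_option autoImplicit false

open scoped ContDiff Topology InnerProductSpace
open MeasureTheory Filter Set

namespace Pool.Agent.VD

theorem GNT_jp {d : ℕ} (G : V d → V d →L[ℝ] V d) (L : P d → P d) (hL : ContDiff ℝ ∞ L) (hX : ContDiff ℝ ∞ (XH G))
    (hLX : ∀ p, fderiv ℝ L p (XH G p) = XH G (L p)) (c q : ℝ → P d) (t : ℝ) (h : JP G c q t) :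
    JP G (fun s => L (c s)) (fun s => fderiv ℝ L (c s) (q s)) t := by
  obtain ⟨h1, h2⟩ := h
  have hL1 : ∀ p, HasFDerivAt L (fderiv ℝ L p) p := fun p => ((hL.differentiable (by simp)) p).hasFDerivAt
  have hL2 : ContDiff ℝ ∞ (fderiv ℝ L) := hL.fderiv_right (by simp)
  have hL3 : ∀ p, HasFDerivAt (fderiv ℝ L) (fderiv ℝ (fderiv ℝ L) p) p := fun p => ((hL2.differentiable (by simp)) p).hasFDerivAt
  have hX1 : ∀ p, HasFDerivAt (XH G) (fderiv ℝ (XH G) p) p := fun p => ((hX.differentiable (by simp)) p).hasFDerivAt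
  constructor
  · have e := (hL1 (c t)).comp_hasDerivAt t h1
    rw [hLX] at e
    exact e
  · have e1 : HasDerivAt (fun s => fderiv ℝ L (c s)) (fderiv ℝ (fderiv ℝ L) (c t) (XH G (c t))) t := (hL3 (c t)).comp_hasDerivAt t h1
    have e2 := e1.clm_apply h2
    have e3 : fderiv ℝ (fderiv ℝ L) (c t) (XH G (c t)) (q t) = fderiv ℝ (fderiv ℝ L) (c t) (q t) (XH G (c t)) := by
      have hs : IsSymmSndFDerivAt ℝ L (c t) := (hL.contDiffAt (x := c t)).isSymmSndFDerivAt (by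
        rw [minSmoothness_of_isRCLikeNormedField]
        exact WithTop.coe_le_coe.2 (le_top : (2 : ℕ∞) ≤ ⊤))
      exact hs _ _
    have e4 : fderiv ℝ (fderiv ℝ L) (c t) (q t) (XH G (c t)) + fderiv ℝ L (c t) (fderiv ℝ (XH G) (c t) (q t)) =
        fderiv ℝ (XH G) (L (c t)) (fderiv ℝ L (c t) (q t)) := by
      have f1 := (hL3 (c t)).clm_apply (hX1 (c t))
      have f2 := (hX1 (L (c t))).comp (c t) (hL1 (c t))
      have f3 : (fun p => fderiv ℝ L p (XH G p)) = (XH G ∘ L) := funext hLX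
      rw [f3] at f1
      have f4 := f1.unique f2
      have f5 := congrArg (fun A : P d →L[ℝ] P d => A (q t)) f4
      simp only [add_apply, ContinuousLinearMap.comp_apply, ContinuousLinearMap.flip_apply] at f5
      rw [← f5, add_comm]
    rw [e3, e4] at e2
    exact e2

/-- curves through given vectors -/
theorem GNT_cur {d : ℕ} (G : V d → V d →L[ℝ] V d) (p q : P d) :
    JP G (fun s : ℝ => p + s • XH G p) (fun s : ℝ => q + s • fderiv ℝ (XH G) p q) 0 := by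
  have h : ∀ a b : P d, HasDerivAt (fun s : ℝ => a + s • b) b 0 := by
    intro a b
    have h1 : HasDerivAt (fun s : ℝ => s • b) ((1 : ℝ) • b) 0 := (hasDerivAt_id (0 : ℝ)).smul_const b
    rw [one_smul] at h1
    exact h1.const_add a
  refine ⟨?_, ?_⟩
  · have e : p + (0 : ℝ) • XH G p = p := by rw [zero_smul, add_zero]
    show HasDerivAt (fun s : ℝ => p + s • XH G p) (XH G (p + (0 : ℝ) • XH G p)) 0
    rw [e]
    exact h _ _
  · have e : p + (0 : ℝ) • XH G p = p := by rw [zero_smul, add_zero]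
    have e' : q + (0 : ℝ) • fderiv ℝ (XH G) p q = q := by rw [zero_smul, add_zero]
    show HasDerivAt (fun s : ℝ => q + s • fderiv ℝ (XH G) p q) (fderiv ℝ (XH G) (p + (0 : ℝ) • XH G p) (q + (0 : ℝ) • fderiv ℝ (XH G) p q)) 0
    rw [e, e']
    exact h _ _

theorem GNT_proof (hGIN : GIN_stmt) (hGLF : GLF_stmt) (hGHL : GHL_stmt) (hGXH : GXH_stmt) (hGCH : GCH_stmt) (hGVL : GVL_stmt) (hGJC : GJC_stmt) (hGQD : GQD_stmt) : GNT_stmt := by
  intro d Γ _ _ G hG hsm hiso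
  obtain ⟨-, -, hlsm, hinv, -, -, hsymp, hfst⟩ := hGLF d Γ hsm
  obtain ⟨hL1, hL2⟩ := hGHL d Γ G hG hsm hiso
  obtain ⟨-, hXsm, -⟩ := hGXH d G hG
  obtain ⟨-, -, -, -, -, hom⟩ := hGVL d G hG
  have hIN := (hGIN d G hG).1
  have hQD := hGQD d G hG
  -- the first statement in the symmetric form
  have hfir : ∀ (γ : Γ) (p q q' : P d), ⟪Wc G (lft γ p) (fderiv ℝ (lft γ : P d → P d) p q), fderiv ℝ (fun y : V d => γ • y) p.1 q'.1⟫_ℝ = ⟪Wc G p q, q'.1⟫_ℝ := by
    intro γ p q q'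
    obtain ⟨c, hc⟩ : ∃ c : ℝ → P d, c = fun s : ℝ => p + s • XH G p := ⟨_, rfl⟩
    obtain ⟨b, hb⟩ : ∃ b : ℝ → P d, b = fun s : ℝ => q + s • fderiv ℝ (XH G) p q := ⟨_, rfl⟩
    obtain ⟨b', hb'⟩ : ∃ b' : ℝ → P d, b' = fun s : ℝ => q' + s • fderiv ℝ (XH G) p q' := ⟨_, rfl⟩
    have c0 : c 0 = p := by rw [hc]; simp
    have b0 : b 0 = q := by rw [hb]; simp
    have b0' : b' 0 = q' := by rw [hb']; simp
    have J1 : JP G c b 0 := by rw [hc, hb]; exact GNT_cur G p q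
    have J2 : JP G c b' 0 := by rw [hc, hb']; exact GNT_cur G p q'
    have K1 := GNT_jp G _ (hlsm γ) hXsm (hL2 γ) c b 0 J1
    have K2 := GNT_jp G _ (hlsm γ) hXsm (hL2 γ) c b' 0 J2
    have D1 := (hQD c b b' 0 J1 J2).2.1
    have D2 := (hQD _ _ _ 0 K1 K2).2.1
    have e : (fun s : ℝ => ⟪G (lft γ (c s)).1 (fderiv ℝ (lft γ : P d → P d) (c s) (b s)).1, (fderiv ℝ (lft γ : P d → P d) (c s) (b' s)).1⟫_ℝ) =
        fun s => ⟪G (c s).1 (b s).1, (b' s).1⟫_ℝ := by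
      funext s
      rw [hfst, hfst]
      exact hiso γ (c s).1 (b s).1 (b' s).1
    rw [e] at D2
    have h1 := D2.unique D1
    rw [c0, b0, b0'] at h1
    have h2 := hom (lft γ p) (fderiv ℝ (lft γ : P d → P d) p q) (fderiv ℝ (lft γ : P d → P d) p q')
    rw [hsymp, hom p q q'] at h2
    rw [hfst, hfst] at h1 h2
    linarith
  refine ⟨fun γ p q w => hfir γ p q (w, 0), ?_⟩
  intro γ x u v
  obtain ⟨p, hp⟩ : ∃ p : P d, p = (x, G x v) := ⟨_, rfl⟩
  obtain ⟨q, hq⟩ : ∃ q : P d, q = (u, ChT G x u (G x v)) := ⟨_, rfl⟩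
  obtain ⟨c, hc⟩ : ∃ c : ℝ → P d, c = fun s : ℝ => p + s • XH G p := ⟨_, rfl⟩
  obtain ⟨b, hb⟩ : ∃ b : ℝ → P d, b = fun s : ℝ => q + s • fderiv ℝ (XH G) p q := ⟨_, rfl⟩
  have c0 : c 0 = p := by rw [hc]; simp
  have b0 : b 0 = q := by rw [hb]; simp
  have J1 : JP G c b 0 := by rw [hc, hb]; exact GNT_cur G p q
  have K1 := GNT_jp G _ (hlsm γ) hXsm (hL2 γ) c b 0 J1
  have D1 := (hQD c b b 0 J1 J1).1
  have D2 := (hQD _ _ _ 0 K1 K1).1
  have e : (fun s : ℝ => Qc G (lft γ (c s)) (fderiv ℝ (lft γ : P d → P d) (c s) (b s))) = fun s => Qc G (c s) (b s) := by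
    funext s
    unfold Qc
    rw [hfst]
    exact hfir γ (c s) (b s) (b s)
  rw [e] at D2
  have h1 := D2.unique D1
  rw [c0, b0] at h1
  have hp1 : p.1 = x := by rw [hp]
  have hq1 : q.1 = u := by rw [hq]
  have hW : Wc G p q = 0 := by
    unfold Wc
    rw [hp, hq]
    simp
  have hW' : Wc G (lft γ p) (fderiv ℝ (lft γ : P d → P d) p q) = 0 := by
    have h2 : ∀ z : V d, ⟪Wc G (lft γ p) (fderiv ℝ (lft γ : P d → P d) p q), z⟫_ℝ = 0 := by
      intro z
      have h3 := hfir γ p q (fderiv ℝ (fun y : V d => γ⁻¹ • y) (γ • p.1) z, 0)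
      rw [hW, inner_zero_left] at h3
      rwa [(hinv γ p.1 z).2] at h3
    exact inner_self_eq_zero.1 (h2 _)
  have hv : vel G p = v := by
    unfold vel
    rw [hp]
    exact (hIN x v).1
  have hv' : vel G (lft γ p) = fderiv ℝ (fun y : V d => γ • y) x v := by
    rw [(hL1 γ p).2.2, hv, hp1]
  have hl1 : (lft γ p).1 = γ • x := by
    rw [← hp1]
    rfl
  rw [hW, hW', hv, hv', hfst, hl1, hp1, hq1] at h1
  simp only [map_zero, inner_zero_left, zero_sub, neg_inj] at h1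
  exact h1

end Pool.Agent.VD
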