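import Pool.Agent.helper93.VD.SpecB1

/-!
# Project VD (MP_07c750_an), row LDE: determinants
-/

set_option autoImplicit false

open scoped InnerProductSpace ContDiff Topology
open MeasureTheory Set Filter

namespace Pool.Agent.VD

theorem LDE_cd (m : ℕ) : ContDiff ℝ 1 (fun X : W m →L[ℝ] W m => X.det) := by
  have e : (fun X : W m →L[ℝ] W m => X.det) = fun X : W m →L[ℝ] W m =>
      (Matrix.of fun i j : Fin m => (X (EuclideanSpace.basisFun (Fin m) ℝ j)) i).det := by
    ext X
    show LinearMap.det (X : W m →ₗ[ℝ] W m) = _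
    rw [← LinearMap.det_toMatrix (EuclideanSpace.basisFun (Fin m) ℝ).toBasis]
    congr 1
    ext i j
    rw [LinearMap.toMatrix_apply]
    simp
  rw [e]
  simp only [Matrix.det_apply, Matrix.of_apply]
  refine ContDiff.sum fun σ _ => ?_
  refine ContDiff.const_smul _ (contDiff_prod fun i _ => ?_)
  have h1 : ContDiff ℝ 1 fun X : W m →L[ℝ] W m => X (EuclideanSpace.basisFun (Fin m) ℝ i) := contDiff_id.clm_apply contDiff_const
  exact (contDiff_euclidean.1 h1) (σ i)

theorem LDE_proof : LDE_stmt := by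
  intro m K hK
  have hK0 : 0 < K := by linarith
  obtain ⟨S, hS⟩ : ∃ S : Set (W m →L[ℝ] W m), S = {X | ∀ x, ‖x‖ ≤ K * ‖X x‖ ∧ ‖X x‖ ≤ K * ‖x‖} := ⟨_, rfl⟩
  have hSball : S ⊆ Metric.closedBall 0 K := by
    intro X hX
    rw [hS] at hX
    rw [mem_closedBall_zero_iff]
    exact ContinuousLinearMap.opNorm_le_bound _ hK0.le fun x => (hX x).2
  have hclosed : IsClosed S := by
    have e : S = ⋂ x : W m, ({X : W m →L[ℝ] W m | ‖x‖ ≤ K * ‖X x‖} ∩ {X : W m →L[ℝ] W m | ‖X x‖ ≤ K * ‖x‖}) := by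
      rw [hS]
      ext X
      simp only [Set.mem_iInter, Set.mem_inter_iff, Set.mem_ofPred_eq]
    rw [e]
    refine isClosed_iInter fun x => ?_
    have h1 : Continuous fun X : W m →L[ℝ] W m => X x := (ContinuousLinearMap.apply ℝ (W m) x).continuous
    exact (isClosed_le continuous_const (continuous_const.mul h1.norm)).inter (isClosed_le h1.norm continuous_const)
  haveI : ProperSpace (W m →L[ℝ] W m) := FiniteDimensional.proper ℝ _
  have hball : IsCompact (Metric.closedBall (0 : W m →L[ℝ] W m) K) := isCompact_closedBall _ _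
  have hcomp : IsCompact S := hball.of_isClosed_subset hclosed hSball
  have hdet : Continuous fun X : W m →L[ℝ] W m => |X.det| := (LDE_cd m).continuous.abs
  have hpos : ∀ X ∈ S, 0 < |X.det| := by
    intro X hX
    rw [hS] at hX
    rw [abs_pos]
    intro h0
    have h1 : (⊥ : Submodule ℝ (W m)) < LinearMap.ker (X : W m →ₗ[ℝ] W m) := LinearMap.bot_lt_ker_of_det_eq_zero h0
    have h2 : LinearMap.ker (X : W m →ₗ[ℝ] W m) = ⊥ := by
      rw [LinearMap.ker_eq_bot']
      intro x hx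
      have h3 := (hX x).1
      have h4 : X x = 0 := hx
      rw [h4, norm_zero, mul_zero] at h3
      exact norm_le_zero_iff.1 h3
    exact h1.ne' h2
  have hne : S.Nonempty := by
    refine ⟨ContinuousLinearMap.id ℝ (W m), ?_⟩
    rw [hS]
    intro x
    have h1 : ‖x‖ ≤ K * ‖x‖ := le_mul_of_one_le_left (norm_nonneg _) hK
    exact ⟨h1, h1⟩
  obtain ⟨X0, hX0, hmin⟩ := hcomp.exists_isMinOn hne hdet.continuousOn
  obtain ⟨X1, hX1, hmax⟩ := hcomp.exists_isMaxOn hne hdet.continuousOn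
  obtain ⟨M, hM⟩ := (LDE_cd m).contDiffOn.exists_lipschitzOnWith one_ne_zero (convex_closedBall (0 : W m →L[ℝ] W m) K) hball
  obtain ⟨c, hc⟩ : ∃ c : ℝ, c = |X0.det| := ⟨_, rfl⟩
  have hc0 : 0 < c := by rw [hc]; exact hpos X0 hX0
  have hlow : ∀ X ∈ S, c ≤ |X.det| := fun X hX => by rw [hc]; exact hmin hX
  have hupp : ∀ X ∈ S, |X.det| ≤ |X1.det| := fun X hX => hmax hX
  obtain ⟨K', hK'⟩ : ∃ K' : ℝ, K' = 1 + |X1.det| + 1 / c + M / c := ⟨_, rfl⟩
  have hM0 : (0 : ℝ) ≤ M := M.2
  have p1 : 0 ≤ |X1.det| := abs_nonneg _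
  have p2 : 0 < 1 / c := by positivity
  have p3 : 0 ≤ (M : ℝ) / c := by positivity
  refine ⟨K', by rw [hK']; linarith, ?_⟩
  intro X X' hX hX'
  have hXS : X ∈ S := by rw [hS]; exact hX
  have hXS' : X' ∈ S := by rw [hS]; exact hX'
  have g1 := hlow X hXS
  have g2 := hlow X' hXS'
  have key : ∀ a b : ℝ, c ≤ a → c ≤ b → Real.log a - Real.log b ≤ |a - b| / c := by
    intro a b ha hb
    have hb0 : 0 < b := by linarith
    have ha0 : 0 < a := by linarith
    rw [← Real.log_div ha0.ne' hb0.ne']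
    have h1 : Real.log (a / b) ≤ a / b - 1 := Real.log_le_sub_one_of_pos (by positivity)
    have h2 : a / b - 1 = (a - b) / b := by field_simp
    have h3 : (a - b) / b ≤ |a - b| / b := div_le_div_of_nonneg_right (le_abs_self _) hb0.le
    have h4 : |a - b| / b ≤ |a - b| / c := div_le_div_of_nonneg_left (abs_nonneg _) hc0 hb
    linarith
  have hL : |X.det - X'.det| ≤ M * ‖X - X'‖ := by
    have h1 := hM.dist_le_mul X (hSball hXS) X' (hSball hXS')
    rwa [Real.dist_eq, dist_eq_norm] at h1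
  have hL2 : abs (abs X.det - abs X'.det) ≤ M * ‖X - X'‖ := (abs_abs_sub_abs_le_abs_sub _ _).trans hL
  refine ⟨hpos X hXS, ?_, ?_, ?_⟩
  · have := hupp X hXS
    rw [hK']; linarith
  · have h1 : 1 ≤ 1 / c * |X.det| := by
      rw [one_div, ← div_eq_inv_mul, le_div_iff₀ hc0, one_mul]
      exact g1
    have h2 : 1 / c * |X.det| ≤ K' * |X.det| := mul_le_mul_of_nonneg_right (by rw [hK']; linarith) (abs_nonneg _)
    linarith
  · have h1 := key _ _ g1 g2
    have h2 := key _ _ g2 g1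
    rw [abs_sub_comm] at h2
    have h3 : abs (abs X.det - abs X'.det) / c ≤ K' * ‖X - X'‖ := by
      have h4 : abs (abs X.det - abs X'.det) / c ≤ M * ‖X - X'‖ / c := div_le_div_of_nonneg_right hL2 hc0.le
      have h5 : M * ‖X - X'‖ / c = M / c * ‖X - X'‖ := by ring
      have h6 : (M : ℝ) / c * ‖X - X'‖ ≤ K' * ‖X - X'‖ := mul_le_mul_of_nonneg_right (by rw [hK']; linarith) (norm_nonneg _)
      linarith
    rw [abs_le]
    constructor
    · linarith
    · linarith

end Pool.Agent.VD
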