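import Pool.Agent.helper99.VD.SpecU

/-!
# Project VD (MP_07c750_an), row PIVA: detection (abstract form of helper49/VN/PIVN.lean)
-/

set_option autoImplicit false

open scoped ENNReal
open MeasureTheory Filter Set

namespace Pool.Agent.VD

section aux

variable {Γ X S : Type} [Group Γ] [MulAction Γ X] [MulAction Γ S] {C c0 : ℝ} {Y : SY X S}

theorem PIVA_fl (h : OKS Γ C c0 Y) (p : S) (hp : |Y.En p| ≤ c0) (u v : ℝ) : Y.fl v p = Y.fl (v - u) (Y.fl u p) := by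
  rw [← h.fla _ _ _ hp]
  congr 1
  ring

theorem PIVA_dS (h : OKS Γ C c0 Y) (p : S) (hp : |Y.En p| ≤ c0) (u v : ℝ) (huv : |v - u| ≤ 1) : Y.dS (Y.fl u p) (Y.fl v p) ≤ C * |v - u| := by
  rw [PIVA_fl h p hp u v]
  exact h.sho _ _ (by rw [h.Enf _ _ hp]; exact hp) huv

theorem PIVA_dX (h : OKS Γ C c0 Y) (hC : 0 ≤ C) (p : S) (hp : |Y.En p| ≤ c0) (u v : ℝ) (huv : |v - u| ≤ 1) :
    Y.dX (Y.ps (Y.fl u p)) (Y.ps (Y.fl v p)) ≤ C ^ 2 * |v - u| := by
  refine (h.psd _ _).trans ?_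
  have h1 := mul_le_mul_of_nonneg_left (PIVA_dS h p hp u v huv) hC
  rw [pow_two, mul_assoc]
  exact h1

theorem PIVA_sep (h : OKS Γ C c0 Y) (p : S) (hp : |Y.En p| ≤ c0) (u v : ℝ) (huv : |v - u| ≤ c0) :
    |v - u| ≤ C * Y.dX (Y.ps (Y.fl u p)) (Y.ps (Y.fl v p)) := by
  rw [PIVA_fl h p hp u v]
  exact h.sep _ _ (by rw [h.Enf _ _ hp]; exact hp) huv

theorem PIVA_inj (h : OKS Γ C c0 Y) (γ η : Γ) (z : X) (hz : Y.dX (γ • z) (η • z) ≤ c0) : γ = η := by
  have h1 : Y.dX ((η⁻¹ * γ) • z) z ≤ c0 := by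
    rw [← h.dXi η, mul_smul, smul_inv_smul]
    exact hz
  exact (inv_mul_eq_one.mp (h.inj _ _ h1)).symm

theorem PIVA_abs (f : X → ℝ) (K t : ℝ) (N : ℕ) (w : ℕ → S) (hn : ∀ j < N, 0 ≤ Y.th f t (w j)) (i : ℕ) (hi : i < N) :
    |K| * Y.th f t (w i) ≤ |thA Y f K t N w| := by
  unfold thA
  rw [← Finset.mul_sum, abs_mul, abs_of_nonneg (Finset.sum_nonneg fun j hj => hn j (Finset.mem_range.mp hj))]
  exact mul_le_mul_of_nonneg_left (Finset.single_le_sum (f := fun j => Y.th f t (w j)) (fun j hj => hn j (Finset.mem_range.mp hj))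
    (Finset.mem_range.mpr hi)) (abs_nonneg _)

theorem PIVA_pos (f : X → ℝ) (K t : ℝ) (N : ℕ) (w : ℕ → S) (hne : thA Y f K t N w ≠ 0) : ∃ i < N, Y.th f t (w i) ≠ 0 := by
  by_contra hcon
  push Not at hcon
  apply hne
  unfold thA
  apply Finset.sum_eq_zero
  intro j hj
  rw [hcon j (Finset.mem_range.mp hj), mul_zero]

end aux

theorem PIVA_proof (hPIGA : PIGA_stmt) : PIVA_stmt := by
  classical
  intro C c0 hC1 hc0 hc01
  have hC0 : 0 < C := by linarith
  have hCsq : C ≤ C ^ 2 := by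
    have := mul_le_mul_of_nonneg_left hC1 hC0.le
    rw [pow_two]; linarith
  have hCsq1 : 1 ≤ C ^ 2 := by linarith
  have hC24 : C ^ 2 ≤ C ^ 4 := pow_le_pow_right₀ hC1 (by norm_num)
  obtain ⟨lam, hlam⟩ : ∃ lam : ℝ, lam = c0 / (4 * C ^ 2) := ⟨_, rfl⟩
  have hl0 : 0 < lam := by rw [hlam]; positivity
  have hl1 : 4 * (C ^ 2 * lam) = c0 := by rw [hlam]; field_simp
  have hl2 : lam ≤ C ^ 2 * lam := le_mul_of_one_le_left hl0.le hCsq1
  have hl3 : lam ≤ c0 := by linarith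
  have hl4 : lam ≤ 1 / 4 := by linarith
  obtain ⟨D, hD⟩ : ∃ D : ℝ, D = 4 * C ^ 4 + 3 * (1 / lam + 1) := ⟨_, rfl⟩
  have hp1 : 0 < 1 / lam := by positivity
  have hD1 : 4 * C ^ 4 ≤ D := by rw [hD]; linarith
  have hD2 : 3 * (1 / lam + 1) ≤ D := by
    rw [hD]
    have : 0 < C ^ 4 := by positivity
    linarith
  have hD3 : 1 ≤ D := by linarith
  have hD0 : 0 < D := by linarith
  refine ⟨D, lam, hD3, hl0, hl3, ?_⟩
  intro Γ X S _ _ _ Y ρ ρ1 e K t J N nc χ w w' hY hNet hρ hρ1 hρ10 ht he1 hK hnc hE hUnd s' hs0 hs1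
  have ht0 : 0 < t := by linarith
  have hNt : 0 ≤ (N : ℝ) * t := by positivity
  -- D ρ ≤ ρ1 ^ 2
  have hncp : 1 / ρ1 ≤ ρ1 / (D * ρ) := by
    have h1 : 1 / ρ1 ≤ D * (N * t + 1) / ρ1 := by
      apply div_le_div_of_nonneg_right _ hρ1.le
      nlinarith
    have h2 : (0 : ℝ) ≤ nc := Nat.cast_nonneg _
    linarith
  have hDρ : D * ρ ≤ ρ1 * ρ1 := by
    rw [div_le_div_iff₀ hρ1 (by positivity)] at hncp
    linarith
  have hρρ : 4 * (C ^ 2 * ρ) ≤ ρ1 * ρ1 := by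
    have h1 : 4 * C ^ 2 * ρ ≤ D * ρ := mul_le_mul_of_nonneg_right (by linarith) hρ.le
    linarith
  have hρρ2 : ρ1 * ρ1 ≤ ρ1 * (1 / 4) := mul_le_mul_of_nonneg_left (by linarith) hρ1.le
  have hCρ : C * ρ ≤ C ^ 2 * ρ := mul_le_mul_of_nonneg_right hCsq hρ.le
  have hρ2 : ρ ≤ C ^ 2 * ρ := le_mul_of_one_le_left hρ.le hCsq1
  have hCρ1 : C ^ 2 * ρ1 ≤ C ^ 2 * lam := mul_le_mul_of_nonneg_left hρ10 (by positivity)
  have hCρ2 : ρ1 ≤ C ^ 2 * ρ1 := le_mul_of_one_le_left hρ1.le hCsq1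
  -- the segment of s'
  set i' := ⌊s' / t⌋₊ with hi'
  have hi'1 : (i' : ℝ) * t ≤ s' := by
    have := Nat.floor_le (div_nonneg hs0 ht0.le)
    rw [← hi', le_div_iff₀ ht0] at this
    exact this
  have hi'2 : s' < (i' + 1) * t := by
    have := Nat.lt_floor_add_one (s' / t)
    rw [← hi', div_lt_iff₀ ht0] at this
    exact this
  have hi'N : i' < N := by
    have h1 : (i' : ℝ) * t < N * t := by linarith
    have h2 : (i' : ℝ) < N := lt_of_mul_lt_mul_right h1 ht0.le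
    exact_mod_cast h2
  have hec0 : e ≤ c0 := by linarith
  have hEw' : ∀ j < N, |Y.En (w' j)| ≤ c0 := fun j hj => ((hE j hj).2).trans hec0
  have hEw : ∀ j < N, |Y.En (w j)| ≤ c0 := fun j hj => ((hE j hj).1).trans hec0
  set q : ℝ → S := fun s => Y.fl (s - i' * t) (w' i') with hq
  have hfr' : frA Y t w' s' = q s' := rfl
  have hqE : ∀ s, |Y.En (q s)| ≤ e := by
    intro s
    show |Y.En (Y.fl (s - i' * t) (w' i'))| ≤ e
    rw [hY.Enf _ _ (hEw' i' hi'N)]
    exact (hE i' hi'N).2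
  have hqS : ∀ u v : ℝ, |v - u| ≤ 1 → Y.dS (q u) (q v) ≤ C * |v - u| := by
    intro u v huv
    have e1 : v - i' * t - (u - i' * t) = v - u := by ring
    have h1 := PIVA_dS hY (w' i') (hEw' i' hi'N) (u - i' * t) (v - i' * t) (by rw [e1]; exact huv)
    rwa [e1] at h1
  have hqX : ∀ u v : ℝ, |v - u| ≤ 1 → Y.dX (Y.ps (q u)) (Y.ps (q v)) ≤ C ^ 2 * |v - u| := by
    intro u v huv
    have e1 : v - i' * t - (u - i' * t) = v - u := by ring
    have h1 := PIVA_dX hY hC0.le (w' i') (hEw' i' hi'N) (u - i' * t) (v - i' * t) (by rw [e1]; exact huv)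
    rwa [e1] at h1
  have hqs : ∀ u v : ℝ, |v - u| ≤ c0 → |v - u| ≤ C * Y.dX (Y.ps (q u)) (Y.ps (q v)) := by
    intro u v huv
    have e1 : v - i' * t - (u - i' * t) = v - u := by ring
    have h1 := PIVA_sep hY (w' i') (hEw' i' hi'N) (u - i' * t) (v - i' * t) (by rw [e1]; exact huv)
    rwa [e1] at h1
  have hqf : ∀ u v : ℝ, Y.fl (v - u) (q u) = q v := by
    intro u v
    have e1 : v - i' * t - (u - i' * t) = v - u := by ring
    have h1 := PIVA_fl hY (w' i') (hEw' i' hi'N) (u - i' * t) (v - i' * t)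
    rw [e1] at h1
    exact h1.symm
  set a := min s' ((i' + 1) * t - ρ1) with ha
  have ha1 : (i' : ℝ) * t ≤ a := le_min hi'1 (by nlinarith)
  have ha2 : a ≤ s' := min_le_left _ _
  have ha3 : a + ρ1 ≤ (i' + 1) * t := by
    have := min_le_right s' ((i' + 1) * t - ρ1)
    linarith
  have ha4 : s' ≤ a + ρ1 := by
    rcases min_choice s' ((i' + 1) * t - ρ1) with h | h
    · rw [ha, h]; linarith
    · rw [ha, h]; linarith
  set sp : ℕ → ℝ := fun k => a + 2 * C ^ 2 * ρ * k with hsp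
  set m := ⌈ρ1 / (4 * C ^ 2 * ρ)⌉₊ with hm
  have hsk : ∀ k : ℕ, k < m → a ≤ sp k ∧ sp k + ρ ≤ a + ρ1 := by
    intro k hk
    rw [hm, Nat.lt_ceil, lt_div_iff₀ (by positivity)] at hk
    have h0 : (0 : ℝ) ≤ 2 * C ^ 2 * ρ * k := by positivity
    simp only [hsp]
    constructor
    · linarith
    · linarith
  -- the bumps
  have hcov : ∀ k : ℕ, ∃ j : Fin J, ∀ x', Y.dX (Y.ps (q (sp k))) x' ≤ ρ / C → 1 ≤ χ j x' := fun k => hNet.cov _
  choose jj hjj using hcov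
  have hρC : 0 ≤ ρ / C := by positivity
  have hjj0 : ∀ k, χ (jj k) (Y.ps (q (sp k))) ≠ 0 := by
    intro k
    have h1 := hjj k (Y.ps (q (sp k))) (by rw [hY.dX0]; exact hρC)
    intro h2
    rw [h2] at h1
    linarith
  have hjinj : ∀ k k' : ℕ, k < k' → k' < m → jj k ≠ jj k' := by
    intro k k' hkk hk' hj
    obtain ⟨a1, a2⟩ := hsk k (hkk.trans hk')
    obtain ⟨b1, b2⟩ := hsk k' hk'
    have d4 : |sp k' - sp k| ≤ ρ1 := by
      rw [abs_le]; constructor <;> linarith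
    have d3 := hqX (sp k) (sp k') (by linarith)
    have d3' := hqs (sp k) (sp k') (by linarith)
    have h1 := hjj0 k'
    rw [← hj] at h1
    obtain ⟨γ, hγ⟩ := hNet.sup (jj k) _ _ (hjj0 k) h1
    have d5 : C ^ 2 * |sp k' - sp k| ≤ C ^ 2 * ρ1 := mul_le_mul_of_nonneg_left d4 (by positivity)
    have hγ1 : γ = 1 := by
      apply hY.inj γ (Y.ps (q (sp k')))
      have t1 := hY.dXt (γ • Y.ps (q (sp k'))) (Y.ps (q (sp k))) (Y.ps (q (sp k')))
      rw [hY.dXs (γ • Y.ps (q (sp k'))) (Y.ps (q (sp k)))] at t1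
      linarith
    rw [hγ1, one_smul] at hγ
    have e1 : sp k' - sp k = 2 * C ^ 2 * ρ * ((k' : ℝ) - k) := by simp only [hsp]; ring
    have e2 : (1 : ℝ) ≤ (k' : ℝ) - k := by
      have : (k : ℝ) + 1 ≤ k' := by exact_mod_cast hkk
      linarith
    have e3 : 2 * C ^ 2 * ρ ≤ sp k' - sp k := by
      rw [e1]
      have : 2 * C ^ 2 * ρ * 1 ≤ 2 * C ^ 2 * ρ * ((k' : ℝ) - k) := mul_le_mul_of_nonneg_left e2 (by positivity)
      linarith
    have hpos : 0 < C ^ 2 * ρ := by positivity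
    rw [abs_of_pos (by linarith)] at d3'
    have e5 := mul_le_mul_of_nonneg_left hγ hC0.le
    have e6 : C * (C * ρ) = C ^ 2 * ρ := by ring
    linarith
  -- the phase of the path of w'
  have hnn : ∀ j x, 0 ≤ χ j x := hNet.bd
  have hbig : ∀ k : ℕ, k < m → 3 ≤ |thA Y (χ (jj k)) K t N w'| := by
    intro k hk
    obtain ⟨a1, a2⟩ := hsk k hk
    have hh0 : 0 < ρ / C ^ 3 := by positivity
    have hh1 : ρ / C ^ 3 ≤ ρ := div_le_self hρ.le (one_le_pow₀ hC1)
    have h1 : ρ / C ^ 3 ≤ C * Y.th (χ (jj k)) t (w' i') := by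
      apply hY.th1 (χ (jj k)) t (sp k - i' * t) (ρ / C ^ 3) (w' i') (hEw' i' hi'N) (by linarith) hh0.le (by linarith) (hnn _) (hNet.cont _ _ (hEw' i' hi'N))
      intro s hs2 hs3
      apply hjj k
      have e1 : q (s + i' * t) = Y.fl s (w' i') := by
        simp only [hq]
        congr 1
        ring
      rw [← e1]
      have e2 : |s + i' * t - sp k| ≤ ρ / C ^ 3 := by
        rw [abs_le]; constructor <;> linarith
      refine (hqX _ _ (by linarith)).trans ?_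
      have e3 := mul_le_mul_of_nonneg_left e2 (by positivity : 0 ≤ C ^ 2)
      have e4 : C ^ 2 * (ρ / C ^ 3) = ρ / C := by field_simp
      linarith
    have h2 := PIVA_abs (Y := Y) (χ (jj k)) K t N w' (fun j hj => hY.thn _ _ _ (hEw' j hj) ht0.le (hnn _) (hNet.cont _ _ (hEw' j hj))) i' hi'N
    have h3 : D / ρ * (ρ / C ^ 4) ≤ |K| * Y.th (χ (jj k)) t (w' i') := by
      apply mul_le_mul hK _ (by positivity) (abs_nonneg _)
      rw [div_le_iff₀ (by positivity)] at h1 ⊢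
      linarith
    have h4 : D / ρ * (ρ / C ^ 4) = D / C ^ 4 := by field_simp
    have h5 : 4 ≤ D / C ^ 4 := by
      rw [le_div_iff₀ (by positivity)]
      exact hD1
    linarith
  -- the undetected indices
  set Dt : Set (Fin J) := {j : Fin J | 1 ≤ |thA Y (χ j) K t N w - thA Y (χ j) K t N w'|} with hDt
  set G := (Finset.range m).filter (fun k => jj k ∉ Dt) with hG
  have hBc : ((Finset.range m).filter (fun k => jj k ∈ Dt)).card < nc := by
    refine lt_of_le_of_lt ?_ hUnd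
    have h1 : ((Finset.range m).filter (fun k => jj k ∈ Dt)).card = (((Finset.range m).filter (fun k => jj k ∈ Dt)).image jj).card := by
      symm
      apply Finset.card_image_of_injOn
      intro k hk k' hk' hkk
      simp only [Finset.coe_filter, Finset.mem_range, mem_ofPred_eq] at hk hk'
      rcases lt_trichotomy k k' with h | h | h
      · exact absurd hkk (hjinj k k' h hk'.1)
      · exact h
      · exact absurd hkk.symm (hjinj k' k h hk.1)
    rw [h1, ← Set.ncard_coe_finset]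
    apply Set.ncard_le_ncard _ (Set.toFinite _)
    intro j hj
    rw [Finset.mem_coe, Finset.mem_image] at hj
    obtain ⟨k, hk, rfl⟩ := hj
    exact (Finset.mem_filter.mp hk).2
  have hGc : (m : ℝ) < G.card + nc := by
    have h1 := Finset.card_filter_add_card_filter_not (s := Finset.range m) (fun k => jj k ∈ Dt)
    rw [Finset.card_range] at h1
    have h2 : m < G.card + nc := by
      have : ((Finset.range m).filter (fun k => ¬ jj k ∈ Dt)).card = G.card := rfl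
      omega
    exact_mod_cast h2
  have hmr : ρ1 / (4 * C ^ 2 * ρ) ≤ m := Nat.le_ceil _
  -- the times for w
  have hgood : ∀ k : ℕ, ∃ (i : ℕ) (σ : ℝ) (η : Γ), k ∈ G → (i < N ∧ 0 ≤ σ ∧ σ < t ∧
      Y.dX (Y.ps (q (sp k))) (η • Y.ps (Y.fl σ (w i))) ≤ C * ρ) := by
    intro k
    by_cases hk : k ∈ G
    · have hk1 := Finset.mem_filter.mp hk
      have hk2 : k < m := Finset.mem_range.mp hk1.1
      have h1 := hbig k hk2
      have h2 : |thA Y (χ (jj k)) K t N w - thA Y (χ (jj k)) K t N w'| < 1 := by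
        by_contra hcon
        exact hk1.2 (not_lt.mp hcon)
      obtain ⟨i, c1, c2⟩ := PIVA_pos (Y := Y) (χ (jj k)) K t N w (by
        intro h
        rw [h, zero_sub, abs_neg] at h2
        linarith)
      obtain ⟨σ, c3, c4, c5⟩ := hY.th2 _ _ _ (hEw i c1) ht0.le c2
      obtain ⟨γ, hγ⟩ := hNet.sup (jj k) _ _ (hjj0 k) c5
      exact ⟨i, σ, γ, fun _ => ⟨c1, c3, c4, hγ⟩⟩
    · exact ⟨0, 0, 1, fun h => absurd h hk⟩
  choose ii σσ ηη hgd using hgood
  -- pigeonhole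
  set L := ⌈1 / ρ1⌉₊ with hL
  have hL1 : 1 / ρ1 ≤ L := Nat.le_ceil _
  have hL2 : (L : ℝ) + 1 ≤ 3 / ρ1 := by
    have h1 : (L : ℝ) < 1 / ρ1 + 1 := Nat.ceil_lt_add_one (by positivity)
    have h2 : 1 ≤ 1 / ρ1 := by rw [le_div_iff₀ hρ1]; linarith
    have e : 3 / ρ1 = 1 / ρ1 + 1 / ρ1 + 1 / ρ1 := by ring
    rw [e]; linarith
  set Yc := Finset.range N ×ˢ Finset.range (⌊t / lam⌋₊ + 1) with hYc
  obtain ⟨k, hk, k', hk', hfk, hkk⟩ := hPIGA Yc.card L G (ℕ × ℕ) Yc (fun k => (ii k, ⌊σσ k / lam⌋₊)) le_rfl (by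
    intro k hk
    obtain ⟨c1, c2, c3, c4⟩ := hgd k hk
    rw [hYc, Finset.mem_product, Finset.mem_range, Finset.mem_range]
    refine ⟨c1, Nat.lt_succ_of_le ?_⟩
    exact Nat.floor_le_floor (div_le_div_of_nonneg_right c3.le hl0.le)) (by
    have h1 : ((Yc.card * (L + 1) : ℕ) : ℝ) < G.card := by
      have h2 : (Yc.card : ℝ) ≤ N * t * (1 / lam + 1) := by
        rw [hYc, Finset.card_product, Finset.card_range, Finset.card_range]
        push_cast
        have h3 : (⌊t / lam⌋₊ : ℝ) ≤ t / lam := Nat.floor_le (by positivity)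
        have h4 : t / lam = t * (1 / lam) := by ring
        have h5 : (⌊t / lam⌋₊ : ℝ) + 1 ≤ t * (1 / lam + 1) := by
          have h3' : (⌊t / lam⌋₊ : ℝ) ≤ t * (1 / lam) := h3.trans_eq h4
          rw [mul_add, mul_one]
          linarith
        calc (N : ℝ) * ((⌊t / lam⌋₊ : ℝ) + 1) ≤ N * (t * (1 / lam + 1)) := mul_le_mul_of_nonneg_left h5 (Nat.cast_nonneg _)
          _ = N * t * (1 / lam + 1) := by ring
      have h6 : ((Yc.card * (L + 1) : ℕ) : ℝ) ≤ D * (N * t + 1) / ρ1 := by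
        push_cast
        have hi : 0 ≤ 1 / lam + 1 := by positivity
        calc (Yc.card : ℝ) * (L + 1) ≤ (N * t * (1 / lam + 1)) * (3 / ρ1) := mul_le_mul h2 hL2 (by positivity) (by positivity)
          _ = (3 * (1 / lam + 1)) * (N * t) / ρ1 := by ring
          _ ≤ D * (N * t + 1) / ρ1 := by
            apply div_le_div_of_nonneg_right _ hρ1.le
            exact mul_le_mul hD2 (by linarith) hNt (by linarith)
      have h7 : ρ1 / (D * ρ) ≤ ρ1 / (4 * C ^ 2 * ρ) := by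
        apply div_le_div_of_nonneg_left hρ1.le (by positivity)
        apply mul_le_mul_of_nonneg_right _ hρ.le
        linarith
      linarith
    exact_mod_cast h1)
  obtain ⟨c1, c2, c3, c4⟩ := hgd k hk
  obtain ⟨c1', c2', c3', c4'⟩ := hgd k' hk'
  simp only [Prod.mk.injEq] at hfk
  obtain ⟨f1, f2⟩ := hfk
  have hkm : k' < m := Finset.mem_range.mp (Finset.mem_filter.mp hk').1
  have hklt : k < k' := by omega
  obtain ⟨a1, a2⟩ := hsk k (hklt.trans hkm)
  obtain ⟨b1, b2⟩ := hsk k' hkm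
  -- the times are close
  have hσ : |σσ k' - σσ k| ≤ lam := by
    have h1 := Nat.floor_le (a := σσ k / lam) (by positivity)
    have h2 := Nat.lt_floor_add_one (σσ k / lam)
    have h3 := Nat.floor_le (a := σσ k' / lam) (by positivity)
    have h4 := Nat.lt_floor_add_one (σσ k' / lam)
    rw [← f2] at h3 h4
    have h5 : |σσ k' / lam - σσ k / lam| ≤ 1 := by
      rw [abs_le]; constructor <;> linarith
    have h6 : σσ k' / lam - σσ k / lam = (σσ k' - σσ k) / lam := by ring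
    rw [h6, abs_div, abs_of_pos hl0, div_le_iff₀ hl0] at h5
    linarith
  rw [← f1] at c4'
  have hEi : |Y.En (w (ii k))| ≤ c0 := hEw (ii k) c1
  set Q : ℝ → S := fun s => Y.fl s (w (ii k)) with hQ
  have c5 : Y.dX (Y.ps (q (sp k))) (ηη k • Y.ps (Q (σσ k))) ≤ C * ρ := c4
  have c5' : Y.dX (Y.ps (q (sp k'))) (ηη k' • Y.ps (Q (σσ k'))) ≤ C * ρ := c4'
  have hQup : Y.dX (Y.ps (Q (σσ k))) (Y.ps (Q (σσ k'))) ≤ C ^ 2 * |σσ k' - σσ k| := PIVA_dX hY hC0.le _ hEi _ _ (by linarith)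
  have hspd : |sp k' - sp k| ≤ ρ1 := by
    rw [abs_le]; constructor <;> linarith
  have hqup := hqX (sp k) (sp k') (by linarith)
  have hQ1 : C ^ 2 * |σσ k' - σσ k| ≤ C ^ 2 * lam := mul_le_mul_of_nonneg_left hσ (by positivity)
  have hq1 : C ^ 2 * |sp k' - sp k| ≤ C ^ 2 * ρ1 := mul_le_mul_of_nonneg_left hspd (by positivity)
  -- the same group element
  have hη : ηη k = ηη k' := by
    apply PIVA_inj hY _ _ (Y.ps (Q (σσ k')))
    have t1 := hY.dXt (ηη k • Y.ps (Q (σσ k'))) (ηη k • Y.ps (Q (σσ k))) (ηη k' • Y.ps (Q (σσ k')))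
    have t2 := hY.dXt (ηη k • Y.ps (Q (σσ k))) (Y.ps (q (sp k))) (ηη k' • Y.ps (Q (σσ k')))
    have t3 := hY.dXt (Y.ps (q (sp k))) (Y.ps (q (sp k'))) (ηη k' • Y.ps (Q (σσ k')))
    rw [hY.dXi, hY.dXs (Y.ps (Q (σσ k')))] at t1
    rw [hY.dXs (ηη k • Y.ps (Q (σσ k))) (Y.ps (q (sp k)))] at t2
    linarith
  rw [← hη] at c5'
  -- two points
  obtain ⟨v, hv⟩ : ∃ v : ℝ, v = sp k' - sp k := ⟨_, rfl⟩
  obtain ⟨u, hu⟩ : ∃ u : ℝ, u = σσ k' - σσ k := ⟨_, rfl⟩
  have hDpos : 2 * C ^ 2 * ρ / ρ1 ≤ v := by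
    have e1 : v = 2 * C ^ 2 * ρ * ((k' : ℝ) - k) := by rw [hv]; simp only [hsp]; ring
    have e2 : (k : ℝ) + L + 1 ≤ k' := by exact_mod_cast hkk
    have e3 : 1 / ρ1 ≤ (k' : ℝ) - k := by linarith
    calc 2 * C ^ 2 * ρ / ρ1 = 2 * C ^ 2 * ρ * (1 / ρ1) := by ring
      _ ≤ 2 * C ^ 2 * ρ * ((k' : ℝ) - k) := mul_le_mul_of_nonneg_left e3 (by positivity)
      _ = v := e1.symm
  have hv0 : 0 < v := lt_of_lt_of_le (by positivity) hDpos
  have hρv1 : 2 * C ^ 2 * ρ ≤ v * ρ1 := by rwa [div_le_iff₀ hρ1] at hDpos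
  have hvρ : v ≤ ρ1 := by
    rw [← hv, abs_of_pos hv0] at hspd
    exact hspd
  have hvρ1 : v * ρ1 ≤ v * 1 := mul_le_mul_of_nonneg_left (by linarith) hv0.le
  have hQE : |Y.En (ηη k • Q (σσ k))| ≤ e := by
    rw [hY.Eng]
    show |Y.En (Y.fl (σσ k) (w (ii k)))| ≤ e
    rw [hY.Enf _ _ hEi]
    exact (hE (ii k) c1).1
  have hQE0 : |Y.En (Q (σσ k))| ≤ c0 := by
    rw [← hY.Eng (ηη k)]
    exact hQE.trans hec0
  have hflQ : Y.fl u (ηη k • Q (σσ k)) = ηη k • Q (σσ k') := by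
    rw [hY.flg _ _ _ hQE0, hu]
    congr 1
    exact (PIVA_fl hY _ hEi _ _).symm
  have hflq : Y.fl v (q (sp k)) = q (sp k') := by
    rw [hv]
    exact hqf _ _
  have htwo := hY.two (q (sp k)) (ηη k • Q (σσ k)) v u (C * ρ) e (hqE _) hQE hec0 hv0 (by linarith) (by rw [hu]; linarith) (by positivity)
    (by
      have e1 : C * (C * ρ) = C ^ 2 * ρ := by ring
      have e2 : 0 < C ^ 2 * ρ := by positivity
      linarith)
    (by rw [hY.psg]; exact c5)
    (by rw [hflQ, hflq, hY.psg]; exact c5')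
  have he0 : 0 ≤ e := (abs_nonneg _).trans (hqE (sp k))
  have hest : C * (C * ρ / v + v + e) ≤ 3 * C * ρ1 := by
    have e1 : C * (C * ρ / v) ≤ ρ1 := by
      have e2 : C * (C * ρ / v) = C ^ 2 * ρ / v := by ring
      rw [e2, div_le_iff₀ hv0]
      have : 0 < C ^ 2 * ρ := by positivity
      linarith
    have e3 : C * v ≤ C * ρ1 := mul_le_mul_of_nonneg_left hvρ hC0.le
    have e4 : C * e ≤ C * ρ1 := mul_le_mul_of_nonneg_left he1 hC0.le
    have e5 : ρ1 ≤ C * ρ1 := le_mul_of_one_le_left hρ1.le hC1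
    have e6 : C * (C * ρ / v + v + e) = C * (C * ρ / v) + C * v + C * e := by ring
    linarith
  have hfl : ⌊(ii k * t + σσ k) / t⌋₊ = ii k := by
    rw [Nat.floor_eq_iff (by positivity)]
    constructor
    · rw [le_div_iff₀ ht0]; linarith
    · rw [div_lt_iff₀ ht0]; linarith
  have hfr : frA Y t w (ii k * t + σσ k) = Q (σσ k) := by
    unfold frA
    rw [hfl]
    simp only [hQ]
    congr 1
    ring
  have hS1 := hqS s' (sp k) (by rw [abs_le]; constructor <;> linarith)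
  have hS2 : C * |sp k - s'| ≤ C * ρ1 := mul_le_mul_of_nonneg_left (by rw [abs_le]; constructor <;> linarith) hC0.le
  have hD4 : 4 * C * ρ1 ≤ D * ρ1 := mul_le_mul_of_nonneg_right (by linarith) hρ1.le
  have hlast : (ii k : ℝ) * t + σσ k < N * t := by
    have h1 : ((ii k : ℝ) + 1) * t ≤ N * t := by
      apply mul_le_mul_of_nonneg_right _ ht0.le
      exact_mod_cast c1
    linarith
  rcases htwo with h | h
  · refine ⟨ii k * t + σσ k, ηη k, false, by positivity, hlast, ?_⟩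
    rw [hfr, hfr']
    have e1 : rvb Y false (ηη k • Q (σσ k)) = ηη k • Q (σσ k) := rfl
    rw [e1]
    have t1 := hY.dSt (q s') (q (sp k)) (ηη k • Q (σσ k))
    linarith
  · refine ⟨ii k * t + σσ k, ηη k, true, by positivity, hlast, ?_⟩
    rw [hfr, hfr']
    have e1 : rvb Y true (ηη k • Q (σσ k)) = Y.rv (ηη k • Q (σσ k)) := rfl
    rw [e1]
    have t1 := hY.dSt (q s') (q (sp k)) (Y.rv (ηη k • Q (σσ k)))
    linarith

end Pool.Agent.VD
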