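import Pool.Agent.helper11.VD.SpecC
import Pool.Agent.helper16.VD.GCH
import Pool.Agent.helper38.VD.GIN

/-!
# Project VD (MP_07c750_an), row RSY: symmetries of the curvature tensor
-/

set_option autoImplicit false

open scoped ContDiff Topology InnerProductSpace
open MeasureTheory Filter Set

namespace Pool.Agent.VD

theorem RSY_proof : RSY_stmt := by
  intro d G hG
  obtain ⟨hsym, hlin, hsm, -, hcomp, -⟩ := GCH_proof GIN_proof d G hG
  have hGd : ∀ x, HasFDerivAt G (fderiv ℝ G x) x := fun x => ((hG.smooth.differentiable (by simp)) x).hasFDerivAt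
  have hCsm : ∀ v w : V d, ContDiff ℝ ∞ fun y => Chr G y v w := fun v w => hsm.comp (contDiff_id.prodMk (contDiff_const.prodMk contDiff_const))
  have hCd : ∀ (v w x : V d), HasFDerivAt (fun y => Chr G y v w) (fderiv ℝ (fun y => Chr G y v w) x) x := fun v w x =>
    (((hCsm v w).differentiable (by simp)) x).hasFDerivAt
  have hadd : ∀ (x u u' v : V d) (a b : ℝ), Chr G x (a • u + b • u') v = a • Chr G x u v + b • Chr G x u' v := by
    intro x u u' v a b
    have h0 : Chr G x 0 v = 0 := by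
      have h := hlin x 0 0 v 1
      rw [smul_zero, add_zero, one_smul] at h
      exact left_eq_add.1 h
    have h1 := hlin x 0 u v a
    rw [zero_add, h0, zero_add] at h1
    rw [hlin, h1]
  have hadd2 : ∀ (x u v v' : V d) (a b : ℝ), Chr G x u (a • v + b • v') = a • Chr G x u v + b • Chr G x u v' := by
    intro x u v v' a b
    rw [hsym, hadd, hsym x v, hsym x v']
  refine ⟨hsym, ?_, ?_, ?_⟩
  · intro x u v w
    unfold Riem
    abel
  · intro x u v w w'
    -- the second derivative of the metric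
    have hder : ∀ u v : V d, HasFDerivAt (fun y => ⟪fderiv ℝ G y v w, w'⟫_ℝ) (fderiv ℝ (fun y => ⟪fderiv ℝ G y v w, w'⟫_ℝ) x) x ∧
        fderiv ℝ (fun y => ⟪fderiv ℝ G y v w, w'⟫_ℝ) x u = ⟪fderiv ℝ (fderiv ℝ G) x u v w, w'⟫_ℝ := by
      intro u v
      have h1 : ContDiff ℝ ∞ (fderiv ℝ G) := hG.smooth.fderiv_right (by simp)
      have h2 : HasFDerivAt (fderiv ℝ G) (fderiv ℝ (fderiv ℝ G) x) x := ((h1.differentiable (by simp)) x).hasFDerivAt
      have h3 := (h2.clm_apply (hasFDerivAt_const v x)).clm_apply (hasFDerivAt_const w x)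
      have h4 := h3.inner ℝ (hasFDerivAt_const w' x)
      refine ⟨h4.differentiableAt.hasFDerivAt, ?_⟩
      rw [h4.fderiv]
      simp [fderivInnerCLM_apply]
    have hS : IsSymmSndFDerivAt ℝ G x := (hG.smooth.contDiffAt (x := x)).isSymmSndFDerivAt (by
      rw [minSmoothness_of_isRCLikeNormedField]
      exact WithTop.coe_le_coe.2 (le_top : (2 : ℕ∞) ≤ ⊤))
    have hSuv : fderiv ℝ (fderiv ℝ G) x u v = fderiv ℝ (fderiv ℝ G) x v u := hS u v
    have key : ∀ u v : V d, ⟪fderiv ℝ (fderiv ℝ G) x u v w, w'⟫_ℝ =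
        ⟪fderiv ℝ G x u (Chr G x v w), w'⟫_ℝ + ⟪G x (fderiv ℝ (fun y => Chr G y v w) x u), w'⟫_ℝ +
        (⟪fderiv ℝ G x u w, Chr G x v w'⟫_ℝ + ⟪G x w, fderiv ℝ (fun y => Chr G y v w') x u⟫_ℝ) := by
      intro u v
      rw [← (hder u v).2]
      have e1 : (fun y => ⟪fderiv ℝ G y v w, w'⟫_ℝ) = fun y => ⟪G y (Chr G y v w), w'⟫_ℝ + ⟪G y w, Chr G y v w'⟫_ℝ := by
        funext y
        rw [hcomp]
      rw [e1]
      have h1 := ((hGd x).clm_apply (hCd v w x)).inner ℝ (hasFDerivAt_const w' x)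
      have h2 := ((hGd x).clm_apply (hasFDerivAt_const w x)).inner ℝ (hCd v w' x)
      have h3 := (h1.add h2).fderiv
      change fderiv ℝ (fun y => ⟪G y (Chr G y v w), w'⟫_ℝ + ⟪G y w, Chr G y v w'⟫_ℝ) x = _ at h3
      rw [h3]
      simp [fderivInnerCLM_apply, inner_add_left]
      ring
    have k1 := key u v
    have k2 := key v u
    rw [hSuv] at k1
    rw [k2] at k1
    rw [hcomp x u, hcomp x u, hcomp x v, hcomp x v] at k1
    have r1 : ⟪G x (Riem G x u v w), w'⟫_ℝ = ⟪G x (fderiv ℝ (fun y => Chr G y v w) x u), w'⟫_ℝ - ⟪G x (fderiv ℝ (fun y => Chr G y u w) x v), w'⟫_ℝ +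
        ⟪G x (Chr G x u (Chr G x v w)), w'⟫_ℝ - ⟪G x (Chr G x v (Chr G x u w)), w'⟫_ℝ := by
      unfold Riem
      simp only [map_add, map_sub, inner_add_left, inner_sub_left]
    have r2 : ⟪G x (Riem G x u v w'), w⟫_ℝ = ⟪G x w, fderiv ℝ (fun y => Chr G y v w') x u⟫_ℝ - ⟪G x w, fderiv ℝ (fun y => Chr G y u w') x v⟫_ℝ +
        ⟪G x w, Chr G x u (Chr G x v w')⟫_ℝ - ⟪G x w, Chr G x v (Chr G x u w')⟫_ℝ := by
      rw [hG.symm, real_inner_comm]
      unfold Riem
      simp only [inner_add_right, inner_sub_right]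
    rw [r1, r2]
    linarith
  · intro x a b u u' v w
    have e1 : fderiv ℝ (fun y => Chr G y (a • u + b • u') w) x v = a • fderiv ℝ (fun y => Chr G y u w) x v + b • fderiv ℝ (fun y => Chr G y u' w) x v := by
      have e2 : (fun y => Chr G y (a • u + b • u') w) = fun y => a • Chr G y u w + b • Chr G y u' w := by
        funext y
        rw [hadd]
      rw [e2]
      have h1 := ((hCd u w x).const_smul a).add ((hCd u' w x).const_smul b)
      have h3 := h1.fderiv
      change fderiv ℝ (fun y => a • Chr G y u w + b • Chr G y u' w) x = _ at h3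
      rw [h3]
      rfl
    unfold Riem
    rw [e1, hadd, hadd, hadd2]
    simp only [map_add, map_smul, smul_sub, smul_add]
    abel

end Pool.Agent.VD
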