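import Pool.Agent.helper55.VD.SpecE3

/-!
# Project VD (MP_07c750_an), row EET: transport of the coefficients along the flow
-/

set_option autoImplicit false

open scoped ContDiff Topology InnerProductSpace ComplexConjugate ENNReal
open MeasureTheory Filter Set

namespace Pool.Agent.VD

open Pool.Agent.VQ (CH KZ PS perZ cmZ)
open Pool.Agent.RPQ (IsOp)

/-- sums of two -/
theorem EET_s2 {X : Type*} [MeasurableSpace X] (μ : Measure X) (x y z : X → ℂ) (a b : ℝ) (hy : AEStronglyMeasurable y μ) (ha : 0 ≤ a) (hb : 0 ≤ b)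
    (hz : ∀ᵐ p ∂μ, ‖z p‖ ≤ ‖x p‖ + ‖y p‖) (h1 : ∫⁻ p, ‖x p‖ₑ ^ 2 ∂μ ≤ ENNReal.ofReal a) (h2 : ∫⁻ p, ‖y p‖ₑ ^ 2 ∂μ ≤ ENNReal.ofReal b) :
    ∫⁻ p, ‖z p‖ₑ ^ 2 ∂μ ≤ ENNReal.ofReal (2 * a + 2 * b) := by
  calc ∫⁻ p, ‖z p‖ₑ ^ 2 ∂μ ≤ ∫⁻ p, (2 * ‖x p‖ₑ ^ 2 + 2 * ‖y p‖ₑ ^ 2) ∂μ := by
        refine lintegral_mono_ae ?_
        filter_upwards [hz] with p hp
        rw [← ofReal_norm, ← ofReal_norm, ← ofReal_norm, ← ENNReal.ofReal_pow (norm_nonneg _),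
          ← ENNReal.ofReal_pow (norm_nonneg _), ← ENNReal.ofReal_pow (norm_nonneg _), ← ENNReal.ofReal_ofNat 2,
          ← ENNReal.ofReal_mul (by norm_num), ← ENNReal.ofReal_mul (by norm_num), ← ENNReal.ofReal_add (by positivity) (by positivity)]
        apply ENNReal.ofReal_le_ofReal
        have h3 := pow_le_pow_left₀ (norm_nonneg _) hp 2
        nlinarith [sq_nonneg (‖x p‖ - ‖y p‖)]
    _ = 2 * (∫⁻ p, ‖x p‖ₑ ^ 2 ∂μ) + 2 * ∫⁻ p, ‖y p‖ₑ ^ 2 ∂μ := by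
        rw [lintegral_add_right' _ ((hy.enorm.pow_const 2).const_mul 2), lintegral_const_mul' _ _ (by norm_num), lintegral_const_mul' _ _ (by norm_num)]
    _ ≤ 2 * ENNReal.ofReal a + 2 * ENNReal.ofReal b := add_le_add (mul_le_mul' le_rfl h1) (mul_le_mul' le_rfl h2)
    _ = ENNReal.ofReal (2 * a + 2 * b) := by
        rw [ENNReal.ofReal_add (by positivity) (by positivity), ENNReal.ofReal_mul (by norm_num), ENNReal.ofReal_mul (by norm_num), ENNReal.ofReal_ofNat]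

section aux

variable {d : ℕ} {Γ : Type} [Group Γ] [MulAction Γ (V d)] {G : V d → V d →L[ℝ] V d} {r0 R : ℝ}

/-- the norm as a lower integral -/
theorem EET_ln (hY : ∀ g : YS Γ d → ℝ, ∫ y in DT d {(1 : Γ)} ∩ GW Γ G r0 2 R, g y ∂mY Γ d = ∫ p in WP G r0 2 R, g (y1 Γ p)) (hv : volume (WP G r0 2 R) < ⊤)
    (x : YS Γ d → ℂ) (hx : AEStronglyMeasurable (fun p : P d => x (y1 Γ p)) (volume.restrict (WP G r0 2 R))) (hb : ∃ b : ℝ, ∀ y, ‖x y‖ ≤ b) :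
    ∫⁻ p in WP G r0 2 R, ‖x (y1 Γ p)‖ₑ ^ 2 = ENNReal.ofReal (nP G r0 {(1 : Γ)} 2 R x) := by
  obtain ⟨m, hm⟩ := hb
  have : IsFiniteMeasure ((volume : Measure (P d)).restrict (WP G r0 2 R)) := ⟨by rwa [Measure.restrict_apply_univ]⟩
  have hi : Integrable (fun p : P d => ‖x (y1 Γ p)‖ ^ 2) ((volume : Measure (P d)).restrict (WP G r0 2 R)) := by
    refine Integrable.of_bound (hx.norm.pow 2) (m ^ 2) (Eventually.of_forall fun p => ?_)
    rw [Real.norm_of_nonneg (by positivity)]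
    exact pow_le_pow_left₀ (norm_nonneg _) (hm _) 2
  have h1 : nP G r0 {(1 : Γ)} 2 R x = ∫ p in WP G r0 2 R, ‖x (y1 Γ p)‖ ^ 2 := hY (fun y => ‖x y‖ ^ 2)
  rw [h1, ofReal_integral_eq_lintegral_ofReal hi (Eventually.of_forall fun p => by positivity)]
  congr 1
  funext p
  rw [ENNReal.ofReal_pow (norm_nonneg _), ofReal_norm]

/-- bounds of the norm from bounds of the lower integral -/
theorem EET_le (hY : ∀ g : YS Γ d → ℝ, ∫ y in DT d {(1 : Γ)} ∩ GW Γ G r0 2 R, g y ∂mY Γ d = ∫ p in WP G r0 2 R, g (y1 Γ p)) (b : ℝ)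
    (x : YS Γ d → ℂ) (hb : 0 ≤ b) (h : ∫⁻ p in WP G r0 2 R, ‖x (y1 Γ p)‖ₑ ^ 2 ≤ ENNReal.ofReal b) : nP G r0 {(1 : Γ)} 2 R x ≤ b := by
  have h1 : nP G r0 {(1 : Γ)} 2 R x = ∫ p in WP G r0 2 R, ‖x (y1 Γ p)‖ ^ 2 := hY (fun y => ‖x y‖ ^ 2)
  rw [h1]
  by_cases hi : Integrable (fun p : P d => ‖x (y1 Γ p)‖ ^ 2) ((volume : Measure (P d)).restrict (WP G r0 2 R))
  · have h1 := ofReal_integral_eq_lintegral_ofReal hi (Eventually.of_forall fun p => by positivity)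
    have h2 : ∫⁻ p in WP G r0 2 R, ENNReal.ofReal (‖x (y1 Γ p)‖ ^ 2) = ∫⁻ p in WP G r0 2 R, ‖x (y1 Γ p)‖ₑ ^ 2 := by
      congr 1
      funext p
      rw [ENNReal.ofReal_pow (norm_nonneg _), ofReal_norm]
    rw [h2] at h1
    rw [← h1] at h
    exact (ENNReal.ofReal_le_ofReal_iff hb).1 h
  · rw [integral_undef hi]
    exact hb

/-- packets of the identity chart: continuous with compact support -/
def EET_RF (Γ : Type) [Group Γ] [MulAction Γ (V d)] (G : V d → V d →L[ℝ] V d) (r0 R : ℝ) (f : YS Γ d → V d → ℂ) : Prop :=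
  ∀ p ∈ WP G r0 2 R, Continuous (pF f (y1 Γ p)) ∧ HasCompactSupport (pF f (y1 Γ p))

theorem EET_rf {Φ : ℝ → P d → P d} {Kd : ℕ} {η m t C : ℝ} {f : YS Γ d → V d → ℂ} (hf : Fa G Φ r0 Kd η m R t f)
    (h : ∀ y ∈ GW Γ G r0 2 R, ∀ z, ‖pF f y z‖ ≤ m ∧ (pF f y z ≠ 0 → ‖y.1⁻¹ • z‖ ≤ C ∧ ‖y.1⁻¹ • z - (Φ t y.2).1‖ ≤ R ^ (-(1 / 2) + η))) :
    EET_RF Γ G r0 R f := by
  intro p hp
  have e : pF f (y1 Γ p) = fun z : V d => f ((1, p) : YS Γ d) z := by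
    funext z
    show f (1, p) ((1 : Γ)⁻¹ • z) = f (1, p) z
    rw [inv_one, one_smul]
  constructor
  · rw [e]
    exact (hf.cont 1).comp (f := fun z : V d => ((p, z) : P d × V d)) (by fun_prop)
  · refine HasCompactSupport.intro (isCompact_closedBall (0 : V d) C) fun z hz => ?_
    by_contra h1
    apply hz
    rw [mem_closedBall_zero_iff]
    have h2 := ((h (y1 Γ p) hp z).2 h1).1
    have e2 : ((y1 Γ p).1)⁻¹ • z = z := by
      show (1 : Γ)⁻¹ • z = z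
      rw [inv_one, one_smul]
    rwa [e2] at h2

theorem EET_ig (hfin : ∀ S : Set (V d), IsCompact S → mv G S < ⊤) {f : YS Γ d → V d → ℂ} (hf : EET_RF Γ G r0 R f) (p : P d) (hp : p ∈ WP G r0 2 R)
    (u : V d → ℂ) (hu : Continuous u) : Integrable (fun z : V d => u z * conj (pF f (y1 Γ p) z)) (mv G) := by
  obtain ⟨h1, h2⟩ := hf p hp
  have : IsFiniteMeasureOnCompacts (mv G) := ⟨fun {S} hS => hfin S hS⟩
  have h3 : HasCompactSupport (fun z => conj (pF f (y1 Γ p) z)) := h2.comp_left (g := fun w : ℂ => conj w) (map_zero _)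
  exact (hu.mul (Complex.continuous_conj.comp h1)).integrable_of_hasCompactSupport h3.mul_left

theorem EET_aF (f : YS Γ d → V d → ℂ) (p : P d) (hp : p ∈ WP G r0 2 R) (u : V d → ℂ) :
    aF G r0 R f u (y1 Γ p) = ∫ z, u z * conj (pF f (y1 Γ p) z) ∂mv G := by
  unfold aF
  exact indicator_of_mem (show y1 Γ p ∈ GW Γ G r0 2 R from hp) _

theorem EET_add (hfin : ∀ S : Set (V d), IsCompact S → mv G S < ⊤) {f : YS Γ d → V d → ℂ} (hf : EET_RF Γ G r0 R f) (p : P d) (hp : p ∈ WP G r0 2 R)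
    (u v w : V d → ℂ) (hu : Continuous u) (hv : Continuous v) (hw : ∀ z, w z = u z + v z) :
    aF G r0 R f w (y1 Γ p) = aF G r0 R f u (y1 Γ p) + aF G r0 R f v (y1 Γ p) := by
  rw [EET_aF f p hp, EET_aF f p hp, EET_aF f p hp, ← integral_add (EET_ig hfin hf p hp u hu) (EET_ig hfin hf p hp v hv)]
  congr 1
  funext z
  rw [hw z]
  ring

theorem EET_sub (hfin : ∀ S : Set (V d), IsCompact S → mv G S < ⊤) {f f' : YS Γ d → V d → ℂ} (hf : EET_RF Γ G r0 R f) (hf' : EET_RF Γ G r0 R f') (p : P d)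
    (hp : p ∈ WP G r0 2 R) (u : V d → ℂ) (hu : Continuous u) :
    aF G r0 R (fun y w => f y w - f' y w) u (y1 Γ p) = aF G r0 R f u (y1 Γ p) - aF G r0 R f' u (y1 Γ p) := by
  rw [EET_aF _ p hp, EET_aF _ p hp, EET_aF _ p hp, ← integral_sub (EET_ig hfin hf p hp u hu) (EET_ig hfin hf' p hp u hu)]
  congr 1
  funext z
  unfold pF
  rw [map_sub]
  ring

/-- comparison of the norms on the manifold -/
theorem EET_nn (hfin : ∀ S : Set (V d), IsCompact S → mv G S < ⊤) {F : Set (V d)} (hF : FD Γ F) (u φ : V d → ℂ) (c : ℝ) (hφ : Continuous φ)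
    (h : ∀ z, ‖u z‖ ≤ c * ‖φ z‖) : nn G F u ≤ c ^ 2 * nn G F φ := by
  obtain ⟨b, hb⟩ := hF.bdd
  have hsub : F ⊆ Metric.closedBall (0 : V d) b := fun x hx => by
    rw [mem_closedBall_zero_iff]
    exact hb x hx
  have hK := isCompact_closedBall (0 : V d) b
  obtain ⟨m, hm⟩ := hK.exists_bound_of_continuousOn hφ.continuousOn
  have hv : mv G F < ⊤ := (measure_mono hsub).trans_lt (hfin _ hK)
  have : IsFiniteMeasure ((mv G).restrict F) := ⟨by rwa [Measure.restrict_apply_univ]⟩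
  have hi : Integrable (fun z => ‖φ z‖ ^ 2) ((mv G).restrict F) := by
    refine Integrable.of_bound (hφ.norm.pow 2).aestronglyMeasurable (m ^ 2) ?_
    refine (ae_restrict_iff' hF.meas).2 (Eventually.of_forall fun p hp => ?_)
    rw [Real.norm_of_nonneg (by positivity)]
    exact pow_le_pow_left₀ (norm_nonneg _) (hm p (hsub hp)) 2
  unfold nn
  rw [← integral_const_mul]
  refine integral_mono_of_nonneg (Eventually.of_forall fun z => by positivity) (hi.const_mul _) (Eventually.of_forall fun z => ?_)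
  show ‖u z‖ ^ 2 ≤ c ^ 2 * ‖φ z‖ ^ 2
  rw [← mul_pow]
  exact pow_le_pow_left₀ (norm_nonneg _) (h z) 2

/-- products with invariant functions -/
theorem EET_fh {F : Set (V d)} (g : V d → ℝ) (φ : V d → ℂ) (hg : Inv Γ g) (hgc : Continuous g) (hφ : FH (⊤ : Subgroup Γ) F φ) :
    FH (⊤ : Subgroup Γ) F (fun z => ((g z : ℝ) : ℂ) * φ z) := by
  refine ⟨(Complex.continuous_ofReal.comp hgc).mul hφ.cont, fun γ hγ z => ?_, ?_⟩
  · show ((g (γ • z) : ℝ) : ℂ) * φ (γ • z) = _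
    rw [hg γ z, hφ.inv γ hγ z]
  · obtain ⟨b, hb⟩ := hφ.supp
    exact ⟨b, fun z hz h => hb z hz (right_ne_zero_of_mul h)⟩

/-- differences -/
theorem EET_fs {F : Set (V d)} (u v : V d → ℂ) (hu : FH (⊤ : Subgroup Γ) F u) (hv : FH (⊤ : Subgroup Γ) F v) : FH (⊤ : Subgroup Γ) F (fun z => u z - v z) := by
  obtain ⟨b, hb⟩ := hu.supp
  obtain ⟨b', hb'⟩ := hv.supp
  refine ⟨hu.cont.sub hv.cont, fun γ hγ z => ?_, max b b', fun z hz h => ?_⟩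
  · show u (γ • z) - v (γ • z) = _
    rw [hu.inv γ hγ z, hv.inv γ hγ z]
  · by_cases h1 : u z = 0
    · by_cases h2 : v z = 0
      · exact absurd (by rw [h1, h2, sub_zero]) h
      · exact (hb' z hz h2).trans (le_max_right _ _)
    · exact (hb z hz h1).trans (le_max_left _ _)

end aux

theorem EET_n2 (R x : ℝ) (hR : 1 ≤ R) (hx : x ≤ -(1 / 101)) : (R ^ x) ^ 2 ≤ R ^ (-(2 / 101) : ℝ) := by
  have hR0 : 0 < R := by linarith
  rw [← Real.rpow_natCast, ← Real.rpow_mul hR0.le]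
  exact Real.rpow_le_rpow_of_exponent_le hR (by push_cast; linarith)

/-- derivatives of the potential -/
theorem EET_der {d : ℕ} {Γ : Type} [Group Γ] [MulAction Γ (V d)] {B : ℕ → ℕ → ℝ} {R : ℝ} {f : V d → ℝ} (hR : 1 ≤ R) (hf : Sm Γ B (R ^ (1 / 100 : ℝ)) R f) (N : ℕ) :
    ∀ n ≤ N, ∀ x : V d, ‖x‖ ≤ N → ‖iteratedFDeriv ℝ n (fun z => R / 2 * f z) x‖ ≤ (∑ n ∈ Finset.range (N + 1), |B N n|) * R ^ (1 / 100 : ℝ) := by
  intro n hn x hx
  have hR0 : 0 < R := by linarith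
  have h1 : iteratedFDeriv ℝ n (fun z => R / 2 * f z) x = (R / 2) • iteratedFDeriv ℝ n f x := by
    have h2 : ContDiffAt ℝ n f x := (hf.smooth.of_le (by exact_mod_cast le_top)).contDiffAt
    exact iteratedFDeriv_const_smul_apply' (a := R / 2) h2
  rw [h1, norm_smul, Real.norm_of_nonneg (by positivity)]
  have h3 := hf.der N n x hx
  have h4 : |B N n| ≤ ∑ n ∈ Finset.range (N + 1), |B N n| :=
    Finset.single_le_sum (f := fun n => |B N n|) (fun i _ => abs_nonneg _) (Finset.mem_range.2 (by omega))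
  have h5 : 0 ≤ R ^ (1 / 100 : ℝ) := Real.rpow_nonneg hR0.le _
  calc R / 2 * ‖iteratedFDeriv ℝ n f x‖ ≤ R / 2 * (B N n * (R ^ (1 / 100 : ℝ) / R)) := mul_le_mul_of_nonneg_left h3 (by positivity)
    _ = B N n * R ^ (1 / 100 : ℝ) / 2 := by field_simp
    _ ≤ |B N n| * R ^ (1 / 100 : ℝ) := by
      have h6 : B N n * R ^ (1 / 100 : ℝ) ≤ |B N n| * R ^ (1 / 100 : ℝ) := mul_le_mul_of_nonneg_right (le_abs_self _) h5
      have h7 : 0 ≤ |B N n| * R ^ (1 / 100 : ℝ) := by positivity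
      linarith
    _ ≤ _ := mul_le_mul_of_nonneg_right h4 h5

theorem EET_proof (hEAX : VDA.EAX_stmt) (hEED : EED_stmt) (hEEF : EEF_stmt) (hEYP : EYP_stmt) (hASAD : ASAD_stmt) (hAFBD : AFBD_stmt) (hAFMD : AFMD_stmt)
    (hAFRD : AFRD_stmt) (hAMVI : AMVI_stmt) : EET_stmt := by
  intro d Γ _ _ K k B r0 χ hK hPU
  obtain ⟨C1, hC1, hEED⟩ := hEED d Γ K k B r0 χ hK hPU
  obtain ⟨C2, hC2, hEEF⟩ := hEEF d Γ K k B r0 χ hK hPU
  obtain ⟨C3, hC3, hASAD⟩ := hASAD d Γ K k B r0 χ hK hPU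
  obtain ⟨C4, hC4, hAFBD⟩ := hAFBD d Γ K k B r0 hK
  obtain ⟨C5, hC5, hAFMD⟩ := hAFMD d Γ K k B r0 χ hK hPU
  obtain ⟨C6, hC6, hAFRD⟩ := hAFRD d Γ K k B r0 hK
  have hP : 0 ≤ C4 * C5 := by positivity
  obtain ⟨CC, hCC⟩ : ∃ CC : ℝ, CC = C1 + C2 + C3 + 4 * (C5 + C4 * C5) := ⟨_, rfl⟩
  have hCC1 : 1 ≤ CC := by rw [hCC]; linarith
  refine ⟨CC, hCC1, ?_⟩
  intro ch A hch hA
  obtain ⟨hz, hzz1, hz1, hz12, hz2, hCz1, hCz2, -⟩ := EAM1 hA hCC1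
  have hz2l : A.z2 ≤ 1 := by
    have := mul_le_mul_of_nonneg_right hCC1 hz2.le
    linarith
  have hCz : CC * A.z1 ≤ 1 := hCz1.trans hz2l
  have hle : ∀ c : ℝ, c ≤ CC → c * A.z1 ≤ 1 := fun c hc => (mul_le_mul_of_nonneg_right hc hz1.le).trans hCz
  have q3 : C3 * A.z1 ≤ 1 := hle _ (by rw [hCC]; linarith)
  have q5 : C5 * A.z1 ≤ 1 := hle _ (by rw [hCC]; linarith)
  have q45 : 4 * (C5 + C4 * C5) * A.z1 ≤ 1 := hle _ (by rw [hCC]; linarith)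
  have p5 : 0 < C5 * A.z1 := by positivity
  have p45 : 0 < C4 * (C5 * A.z1) := by positivity
  have e45 : 4 * (C5 * A.z1) + 4 * (C4 * (C5 * A.z1)) ≤ 1 := by linarith
  obtain ⟨RD, -, hEED⟩ := hEED ch A hch (EAM0 hA hC1 (by rw [hCC]; linarith))
  obtain ⟨N, RF, -, hEEF⟩ := hEEF ch A hch (EAM0 hA hC2 (by rw [hCC]; linarith))
  obtain ⟨RS, -, hASAD⟩ := hASAD ch A.z A.z1 hch hz hzz1 q3
  obtain ⟨Kd, RB, -, hAFBD⟩ := hAFBD (C5 * A.z1) p5 (by linarith)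
  obtain ⟨RM, -, hAFMD⟩ := hAFMD ch Kd A.z A.z1 10 hch hz hzz1 q5
  obtain ⟨L0, hL0⟩ : ∃ L0 : ℝ, L0 = ∑ n ∈ Finset.range (N + 1), |B N n| := ⟨_, rfl⟩
  have hL00 : 0 ≤ L0 := by rw [hL0]; exact Finset.sum_nonneg fun i _ => abs_nonneg _
  have ev1 : ∀ᶠ R : ℝ in atTop, L0 ^ 2 ≤ R ^ (1 / 2 : ℝ) := (tendsto_rpow_atTop (by norm_num : (0 : ℝ) < 1 / 2)).eventually (eventually_ge_atTop _)
  have ev2 : ∀ᶠ R : ℝ in atTop, (46 : ℝ) ≤ R ^ (19 / 6060 : ℝ) := (tendsto_rpow_atTop (by norm_num : (0 : ℝ) < 19 / 6060)).eventually (eventually_ge_atTop _)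
  obtain ⟨Re, hRe⟩ := eventually_atTop.1 (ev1.and (ev2.and ((eventually_ge_atTop RD).and ((eventually_ge_atTop RF).and ((eventually_ge_atTop RS).and
    ((eventually_ge_atTop RB).and ((eventually_ge_atTop RM).and (eventually_ge_atTop C6))))))))
  refine ⟨max 1 Re, le_max_left _ _, ?_⟩
  intro R t F G Φ f u hR hF hOK hAp ht0 ht1
  have hR1 : 1 ≤ R := (le_max_left _ _).trans hR
  have hR0 : 0 < R := by linarith
  obtain ⟨hl, h46, hRD, hRF, hRS, hRB, hRM, hRC⟩ := hRe R ((le_max_right _ _).trans hR)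
  have hDm : Dm (⊤ : Subgroup Γ) F {(1 : Γ)} := Or.inl ⟨rfl, hF, rfl⟩
  obtain ⟨hcnt, -, -, -, hfin, -⟩ := hAMVI d Γ K k B G hK hOK.cls
  obtain ⟨hWm, -, -, hemb, hY, -, hvol⟩ := hEYP d Γ G r0 2 R hOK.cls.met
  have hN0 : 0 ≤ nn G F u := integral_nonneg fun z => by positivity
  -- the families
  have hFaP : ∀ s : ℝ, |s| ≤ 1 → Fa (Γ := Γ) G Φ r0 Kd (C5 * A.z1) (R ^ (3 * (d : ℝ) / 4 + C5 * A.z1)) R s (fP G Φ χ ch A.z A.z1 R s) := fun s hs => (hAFMD R s G Φ hRM hOK hs).1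
  have hFaE : ∀ s : ℝ, |s| ≤ 1 → Fa (Γ := Γ) G Φ r0 Kd (C5 * A.z1) (R ^ (3 * (d : ℝ) / 4 - 1 / 2 + C5 * A.z1)) R s (fE G Φ χ ch A.z A.z1 R s) := fun s hs => (hAFMD R s G Φ hRM hOK hs).2.1
  obtain ⟨-, -, hFaG, hFaD, -, hGp⟩ := hAFMD R 0 G Φ hRM hOK (by simp)
  have hrpow : ∀ x : ℝ, 0 ≤ R ^ x := fun x => Real.rpow_nonneg hR0.le x
  have p4 : C5 * A.z1 ≤ 1 / 4 := by linarith
  have rP := fun (s : ℝ) (hs : |s| ≤ 1) => hAFRD Kd _ _ R s G Φ _ hRC hOK p5 p4 (hrpow _) hs (hFaP s hs)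
  have rE := fun (s : ℝ) (hs : |s| ≤ 1) => hAFRD Kd _ _ R s G Φ _ hRC hOK p5 p4 (hrpow _) hs (hFaE s hs)
  have rG := hAFRD Kd _ _ R 0 G Φ _ hRC hOK p5 p4 (hrpow _) (by simp) hFaG
  have rD := hAFRD Kd _ _ R 0 G Φ _ hRC hOK p5 p4 (hrpow _) (by simp) hFaD
  have RFP : ∀ s : ℝ, |s| ≤ 1 → EET_RF Γ G r0 R (fP G Φ χ ch A.z A.z1 R s) := fun s hs => EET_rf (hFaP s hs) (rP s hs).1
  have RFG : EET_RF Γ G r0 R (fG G χ ch A.z R) := EET_rf hFaG rG.1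
  have FPP : ∀ (s : ℝ) (hs : |s| ≤ 1) (φ : V d → ℂ), FH (⊤ : Subgroup Γ) F φ → FP (⊤ : Subgroup Γ) {(1 : Γ)} (aF G r0 R (fP G Φ χ ch A.z A.z1 R s) φ) := fun s hs φ hφ =>
    ((rP s hs).2.2 ⊤ F _ hDm).2.1 φ hφ
  have FPE : ∀ (s : ℝ) (hs : |s| ≤ 1) (φ : V d → ℂ), FH (⊤ : Subgroup Γ) F φ → FP (⊤ : Subgroup Γ) {(1 : Γ)} (aF G r0 R (fE G Φ χ ch A.z A.z1 R s) φ) := fun s hs φ hφ =>
    ((rE s hs).2.2 ⊤ F _ hDm).2.1 φ hφ
  have FPD : FP (⊤ : Subgroup Γ) {(1 : Γ)} (aF G r0 R (fun (y : YS Γ d) w => fP G Φ χ ch A.z A.z1 R 0 y w - fG G χ ch A.z R y w) u) := (rD.2.2 ⊤ F _ hDm).2.1 u hAp.fh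
  -- measurability on the window
  have hms : ∀ x : YS Γ d → ℂ, Measurable x → AEStronglyMeasurable (fun p : P d => x (y1 Γ p)) ((volume : Measure (P d)).restrict (WP G r0 2 R)) := fun x hx =>
    (hx.comp hemb.measurable).aestronglyMeasurable
  -- the function `g`
  have hΦc : Continuous fun q : ℝ × P d => Φ q.1 q.2 := hOK.flow.smooth.continuous
  have hfc : Continuous f := hAp.sm.smooth.continuous
  have hgc : Continuous fun z : V d => R / 2 * f z := continuous_const.mul hfc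
  have hginv : Inv Γ (fun z : V d => R / 2 * f z) := fun γ x => by
    show R / 2 * f (γ • x) = R / 2 * f x
    rw [hAp.sm.inv γ x]
  have hgsm : ContDiff ℝ ∞ (fun z : V d => R / 2 * f z) := contDiff_const.mul hAp.sm.smooth
  have hg3 : Continuous fun x : P d × ℝ => R / 2 * f (Φ x.2 x.1).1 :=
    hgc.comp (continuous_fst.comp (hΦc.comp (f := fun x : P d × ℝ => ((x.2, x.1) : ℝ × P d)) (by fun_prop)))
  have hgb : ∀ z : V d, |R / 2 * f z| ≤ R ^ (1 / 100 : ℝ) := by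
    intro z
    have h1 := hAp.sm.bd z
    rw [abs_mul, abs_of_pos (by positivity : 0 < R / 2)]
    have h2 := mul_le_mul_of_nonneg_left h1 (by positivity : 0 ≤ R / 2)
    have h3 : R / 2 * (R ^ (1 / 100 : ℝ) / R) = R ^ (1 / 100 : ℝ) / 2 := by field_simp
    have h4 := hrpow (1 / 100)
    linarith
  have hgu := EET_fh (Γ := Γ) (F := F) (fun z : V d => R / 2 * f z) u hginv hgc hAp.fh
  have hχ := EET_fs (Γ := Γ) (F := F) _ _ hAp.hh hgu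
  have hχn := EET_nn (Γ := Γ) hfin hF _ u _ hAp.fh.cont hAp.res
  obtain ⟨hE1, hE2, hE3⟩ := hEED R G Φ u hRD hOK hAp.cd
  obtain ⟨Q, hQ⟩ : ∃ Q : ℝ, Q = R ^ (-(2 / 101) : ℝ) := ⟨_, rfl⟩
  have hQ0 : 0 ≤ Q := by rw [hQ]; exact hrpow _
  have hQN : 0 ≤ Q * nn G F u := mul_nonneg hQ0 hN0
  have habs : ∀ s ∈ Icc (0 : ℝ) 1, |s| ≤ 1 := fun s hs => by rw [abs_of_nonneg hs.1]; exact hs.2
  -- the three bounds
  have ba : ∀ s ∈ Icc (0 : ℝ) 1, nP G r0 {(1 : Γ)} 2 R (fun y => aF G r0 R (fP G Φ χ ch A.z A.z1 R s) (fun z => ((R / 2 * f z : ℝ) : ℂ) * u z) y -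
      ((R / 2 * f (Φ s y.2).1 : ℝ) : ℂ) * aF G r0 R (fP G Φ χ ch A.z A.z1 R s) u y) ≤ Q * nn G F u := by
    intro s hs
    have hLd := EET_der hR1 hAp.sm N
    rw [← hL0] at hLd
    refine (hEEF R s (L0 * R ^ (1 / 100 : ℝ)) F G Φ u (fun z => R / 2 * f z) hRF hF hOK hAp.fh hginv hgsm (mul_nonneg hL00 (hrpow _)) hLd hs.1 hs.2).trans ?_
    refine mul_le_mul_of_nonneg_right ?_ hN0
    have e1 : (L0 * R ^ (1 / 100 : ℝ)) ^ 2 * R ^ (-(9 / 10) : ℝ) = L0 ^ 2 * R ^ (-(88 / 100) : ℝ) := by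
      rw [mul_pow, ← Real.rpow_natCast (R ^ (1 / 100 : ℝ)), ← Real.rpow_mul hR0.le, mul_assoc, ← Real.rpow_add hR0]
      norm_num
    rw [e1]
    calc L0 ^ 2 * R ^ (-(88 / 100) : ℝ) ≤ R ^ (1 / 2 : ℝ) * R ^ (-(88 / 100) : ℝ) := mul_le_mul_of_nonneg_right hl (hrpow _)
      _ = R ^ (-(38 / 100) : ℝ) := by rw [← Real.rpow_add hR0]; norm_num
      _ ≤ Q := by rw [hQ]; exact Real.rpow_le_rpow_of_exponent_le hR1 (by norm_num)
  have bb1 : ∀ s ∈ Icc (0 : ℝ) 1, nP G r0 {(1 : Γ)} 2 R (aF G r0 R (fP G Φ χ ch A.z A.z1 R s) (fun z => Hop G R u z - ((R / 2 * f z : ℝ) : ℂ) * u z)) ≤ 4 * (Q * nn G F u) := by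
    intro s hs
    refine ((hASAD R s G Φ hRS hOK hs.1 hs.2 ⊤ F _ hDm).2 _ hχ).trans ?_
    have e0 : R ^ (-(9 / 40) : ℝ) ≤ 1 := Real.rpow_le_one_of_one_le_of_nonpos hR1 (by norm_num)
    have e1 : (1 + R ^ (-(9 / 40) : ℝ)) ^ 2 ≤ 2 ^ 2 := pow_le_pow_left₀ (by linarith [hrpow (-(9 / 40))]) (by linarith) 2
    have e2 : (R ^ (-(1 / 101) : ℝ)) ^ 2 ≤ Q := by rw [hQ]; exact EET_n2 R _ hR1 le_rfl
    calc (1 + R ^ (-(9 / 40) : ℝ)) ^ 2 * nn G F (fun z => Hop G R u z - ((R / 2 * f z : ℝ) : ℂ) * u z)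
        ≤ 2 ^ 2 * ((R ^ (-(1 / 101) : ℝ)) ^ 2 * nn G F u) := mul_le_mul e1 hχn (integral_nonneg fun z => by positivity) (by norm_num)
      _ ≤ 2 ^ 2 * (Q * nn G F u) := mul_le_mul_of_nonneg_left (mul_le_mul_of_nonneg_right e2 hN0) (by norm_num)
      _ = _ := by ring
  have bb2 : ∀ s ∈ Icc (0 : ℝ) 1, nP G r0 {(1 : Γ)} 2 R (aF G r0 R (fE G Φ χ ch A.z A.z1 R s) u) ≤ Q * nn G F u := by
    intro s hs
    refine ((hAFBD R _ s G Φ _ hRB hOK (hrpow _) (habs s hs) (hFaE s (habs s hs)) ⊤ F _ hDm).2 u hAp.fh).trans ?_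
    refine mul_le_mul_of_nonneg_right ?_ hN0
    rw [← Real.rpow_add hR0, hQ]
    refine EET_n2 R _ hR1 ?_
    linarith
  have bb0 : nP G r0 {(1 : Γ)} 2 R (aF G r0 R (fun (y : YS Γ d) w => fP G Φ χ ch A.z A.z1 R 0 y w - fG G χ ch A.z R y w) u) ≤ Q * nn G F u := by
    refine ((hAFBD R _ 0 G Φ _ hRB hOK (hrpow _) (by simp) hFaD ⊤ F _ hDm).2 u hAp.fh).trans ?_
    refine mul_le_mul_of_nonneg_right ?_ hN0
    rw [← Real.rpow_add hR0, hQ]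
    refine EET_n2 R _ hR1 ?_
    have hd : (0 : ℝ) ≤ (d : ℝ) := Nat.cast_nonneg d
    linarith
  -- transport
  obtain ⟨pp, hpp⟩ : ∃ pp : ℝ → P d → ℂ, pp = fun s p => aF G r0 R (fP G Φ χ ch A.z A.z1 R s) u (y1 Γ p) := ⟨_, rfl⟩
  obtain ⟨g, hg⟩ : ∃ g : ℝ → P d → ℝ, g = fun s p => R / 2 * f (Φ s p).1 := ⟨_, rfl⟩
  obtain ⟨r, hr⟩ : ∃ r : ℝ → P d → ℂ, r = fun s p => aF G r0 R (fP G Φ χ ch A.z A.z1 R s) (Hop G R u) (y1 Γ p) + aF G r0 R (fE G Φ χ ch A.z A.z1 R s) u (y1 Γ p) -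
    ((R / 2 * f (Φ s p).1 : ℝ) : ℂ) * aF G r0 R (fP G Φ χ ch A.z A.z1 R s) u (y1 Γ p) := ⟨_, rfl⟩
  have hrc : ContinuousOn (fun x : P d × ℝ => r x.2 x.1) (WP G r0 2 R ×ˢ Icc 0 1) := by
    rw [hr]
    exact ((hE2 _ hAp.hh.cont).add hE3).sub ((Complex.continuous_ofReal.comp hg3).continuousOn.mul (hE2 _ hAp.fh.cont))
  have hIcc : Icc 0 t ⊆ Icc (0 : ℝ) 1 := Icc_subset_Icc_right ht1
  have hcore := hEAX (P d) volume (WP G r0 2 R) pp r g t (2 * (Q * nn G F u) + 2 * (2 * (4 * (Q * nn G F u)) + 2 * (Q * nn G F u))) ht0 hWm (by positivity) ?_ ?_ ?_ ?_ ?_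
  rotate_left
  · intro p _
    rw [hg]
    exact hg3.comp (f := fun s : ℝ => ((p, s) : P d × ℝ)) (by fun_prop)
  · intro p hp
    exact hrc.comp (f := fun s : ℝ => ((p, s) : P d × ℝ)) (by fun_prop) (fun s hs => ⟨hp, hIcc hs⟩)
  · intro p hp s hs
    have h1 := hE1 p hp s (hIcc hs)
    rw [hpp, hg, hr]
    refine h1.congr_deriv ?_
    ring
  · rw [Measure.prod_restrict]
    exact ((hrc.mono (prod_mono subset_rfl hIcc)).aestronglyMeasurable (hWm.prod measurableSet_Icc)).enorm.pow_const 2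
  · intro s hs
    have hs1 := hIcc hs
    have hsa := habs s hs1
    have m1 : Measurable fun y : YS Γ d => aF G r0 R (fP G Φ χ ch A.z A.z1 R s) (fun z => ((R / 2 * f z : ℝ) : ℂ) * u z) y := (FPP s hsa _ hgu).meas
    have m2 : Measurable fun y : YS Γ d => aF G r0 R (fP G Φ χ ch A.z A.z1 R s) u y := (FPP s hsa _ hAp.fh).meas
    obtain ⟨b1, hb1⟩ := (FPP s hsa _ hgu).bdd
    obtain ⟨b2, hb2⟩ := (FPP s hsa _ hAp.fh).bdd
    have gm : Measurable fun p : P d => ((R / 2 * f (Φ s p).1 : ℝ) : ℂ) :=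
      (Complex.continuous_ofReal.comp (hg3.comp (f := fun p : P d => ((p, s) : P d × ℝ)) (by fun_prop))).measurable
    have l1 := (EET_ln hY hvol (fun y : YS Γ d => aF G r0 R (fP G Φ χ ch A.z A.z1 R s) (fun z => ((R / 2 * f z : ℝ) : ℂ) * u z) y -
      ((R / 2 * f (Φ s y.2).1 : ℝ) : ℂ) * aF G r0 R (fP G Φ χ ch A.z A.z1 R s) u y)
      (((m1.comp hemb.measurable).sub (gm.mul (m2.comp hemb.measurable))).aestronglyMeasurable)
      ⟨b1 + R ^ (1 / 100 : ℝ) * b2, fun y => by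
        refine (norm_sub_le _ _).trans (add_le_add (hb1 y) ?_)
        rw [norm_mul, Complex.norm_real, Real.norm_eq_abs]
        exact mul_le_mul (hgb _) (hb2 y) (norm_nonneg _) (hrpow _)⟩).le.trans (ENNReal.ofReal_le_ofReal (ba s hs1))
    have f2 := FPP s hsa _ hχ
    have f3 := FPE s hsa _ hAp.fh
    have l2 := (EET_ln hY hvol _ (hms _ f2.meas) f2.bdd).le.trans (ENNReal.ofReal_le_ofReal (bb1 s hs1))
    have l3 := (EET_ln hY hvol _ (hms _ f3.meas) f3.bdd).le.trans (ENNReal.ofReal_le_ofReal (bb2 s hs1))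
    have l4 := EET_s2 ((volume : Measure (P d)).restrict (WP G r0 2 R)) _ _
      (fun p => aF G r0 R (fP G Φ χ ch A.z A.z1 R s) (fun z => Hop G R u z - ((R / 2 * f z : ℝ) : ℂ) * u z) (y1 Γ p) + aF G r0 R (fE G Φ χ ch A.z A.z1 R s) u (y1 Γ p)) _ _
      (hms _ f3.meas) (by positivity) hQN (Eventually.of_forall fun p => norm_add_le _ _) l2 l3
    refine EET_s2 ((volume : Measure (P d)).restrict (WP G r0 2 R)) _ _ _ _ _ ((hms _ f2.meas).add (hms _ f3.meas)) hQN (by positivity) ?_ l1 l4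
    refine (ae_restrict_iff' hWm).2 (Eventually.of_forall fun p hp => ?_)
    refine le_trans (le_of_eq ?_) (norm_add_le _ _)
    congr 1
    rw [hr]
    simp only []
    rw [EET_add hfin (RFP s hsa) p hp _ _ (Hop G R u) hgu.cont hχ.cont (fun z => by ring)]
    have e1 : (y1 Γ p).2 = p := rfl
    rw [e1, Pi.add_apply]
    ring
  -- the conclusion
  have hθ : ∀ p : P d, (∫ s in (0 : ℝ)..t, g s p) = thP Φ f R t p := by
    intro p
    rw [hg]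
    unfold thP
    exact intervalIntegral.integral_const_mul _ _
  have htt : t ^ 2 ≤ 1 := by nlinarith
  have hcore2 := hcore.trans (ENNReal.ofReal_le_ofReal (mul_le_mul_of_nonneg_right htt (by positivity : 0 ≤ 2 * (Q * nn G F u) + 2 * (2 * (4 * (Q * nn G F u)) + 2 * (Q * nn G F u)))))
  have hD := (EET_ln hY hvol _ (hms _ FPD.meas) FPD.bdd).le.trans (ENNReal.ofReal_le_ofReal bb0)
  refine EET_le hY _ _ (mul_nonneg (hrpow _) hN0) ?_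
  have hfin2 := EET_s2 ((volume : Measure (P d)).restrict (WP G r0 2 R)) _ _
    (fun p => aF G r0 R (fP G Φ χ ch A.z A.z1 R t) u (y1 Γ p) - Complex.exp (((thP Φ f R t (y1 Γ p).2 : ℝ) : ℂ) * Complex.I) * QF G χ ch A.z R u (y1 Γ p)) _ _
    (hms _ FPD.meas) (by positivity) hQN ?_ hcore2 hD
  · refine hfin2.trans (ENNReal.ofReal_le_ofReal ?_)
    have e1 : R ^ (-(1 / 60) : ℝ) = R ^ (19 / 6060 : ℝ) * Q := by
      rw [hQ, ← Real.rpow_add hR0]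
      norm_num
    rw [e1, mul_assoc]
    have e2 := mul_le_mul_of_nonneg_right h46 hQN
    linarith
  · refine (ae_restrict_iff' hWm).2 (Eventually.of_forall fun p hp => ?_)
    have e0 : aF G r0 R (fun (y : YS Γ d) w => fP G Φ χ ch A.z A.z1 R 0 y w - fG G χ ch A.z R y w) u (y1 Γ p) = pp 0 p - QF G χ ch A.z R u (y1 Γ p) := by
      rw [EET_sub hfin (RFP 0 (by simp)) RFG p hp u hAp.fh.cont, hpp, EET_aF (fG G χ ch A.z R) p hp]
      unfold QF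
      simp only [hGp]
    rw [e0, hθ]
    have e1 : (y1 Γ p).2 = p := rfl
    rw [e1]
    have e2 : aF G r0 R (fP G Φ χ ch A.z A.z1 R t) u (y1 Γ p) = pp t p := by rw [hpp]
    rw [e2]
    have e3 : pp t p - Complex.exp (((thP Φ f R t p : ℝ) : ℂ) * Complex.I) * QF G χ ch A.z R u (y1 Γ p) =
        (pp t p - Complex.exp (((thP Φ f R t p : ℝ) : ℂ) * Complex.I) * pp 0 p) + Complex.exp (((thP Φ f R t p : ℝ) : ℂ) * Complex.I) * (pp 0 p - QF G χ ch A.z R u (y1 Γ p)) := by ring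
    rw [e3]
    refine (norm_add_le _ _).trans (le_of_eq ?_)
    rw [norm_mul, Complex.norm_exp_ofReal_mul_I, one_mul]

end Pool.Agent.VD
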